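import Pool.Agent.Helper69.EK7.NullF
set_option autoImplicit false
open Complex MeasureTheory Metric Set
open scoped Real ComplexConjugate

/-!
# Project CK: null Lagrangians against a weight which depends on both variables

The weight is a function of the point of the disc, the same for all targets.
-/

namespace Pool.Agent.Helper84.CK

open Pool.Agent.Helper52.EK Pool.Agent.Helper69.EK3 Pool.Agent.Helper69.EK7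

/-- a weight on the half strip with its partial derivatives and a bound `g` of its variation -/
structure Wt (x₁ x₂ : ℝ) (Ω Ω₁ Ω₂ g : ℝ → ℝ → ℝ) : Prop where
  c0 : CH x₁ x₂ (π / 2) Ω
  c1 : CH x₁ x₂ (π / 2) Ω₁
  c2 : CH x₁ x₂ (π / 2) Ω₂
  cg : CH x₁ x₂ (π / 2) g
  d1 : ∀ ξ ∈ Icc x₁ x₂, ∀ η ∈ Icc (0:ℝ) (π / 2), HasDerivAt (fun t => Ω t η) (Ω₁ ξ η) ξ
  d2 : ∀ ξ ∈ Icc x₁ x₂, ∀ η ∈ Icc (0:ℝ) (π / 2), HasDerivAt (fun t => Ω ξ t) (Ω₂ ξ η) η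
  e1 : ∀ η ∈ Icc (0:ℝ) (π / 2), Ω x₁ η = 0
  e2 : ∀ η ∈ Icc (0:ℝ) (π / 2), Ω x₂ η = 0
  b01 : ∀ ξ ∈ Icc x₁ x₂, ∀ η ∈ Icc (0:ℝ) (π / 2), 0 ≤ Ω ξ η ∧ Ω ξ η ≤ 1
  g1 : ∀ ξ ∈ Icc x₁ x₂, ∀ η ∈ Icc (0:ℝ) (π / 2), |Ω₁ ξ η| * Real.sin η ≤ g ξ η
  g2 : ∀ ξ ∈ Icc x₁ x₂, ∀ η ∈ Icc (0:ℝ) (π / 2), |Ω₂ ξ η| * Real.sin η ≤ g ξ η

/-- the error term -/
noncomputable def Eg (g : ℝ → ℝ → ℝ) (X : ℂ → ℂ) (x₁ x₂ : ℝ) : ℝ :=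
  IH x₁ x₂ (π / 2) (fun ξ η => g ξ η * (1 + ‖X (pt ξ η) - 1‖ ^ 2))

theorem sin_nn {η : ℝ} (hη : η ∈ Icc (0:ℝ) (π / 2)) : 0 ≤ Real.sin η :=
  Real.sin_nonneg_of_nonneg_of_le_pi hη.1 (hη.2.trans (by linarith [Real.pi_pos]))

theorem Wt.g0 {x₁ x₂ : ℝ} {Ω Ω₁ Ω₂ g : ℝ → ℝ → ℝ} (h : Wt x₁ x₂ Ω Ω₁ Ω₂ g) :
    ∀ ξ ∈ Icc x₁ x₂, ∀ η ∈ Icc (0:ℝ) (π / 2), 0 ≤ g ξ η := fun ξ hξ η hη =>
  (mul_nonneg (abs_nonneg _) (sin_nn hη)).trans (h.g1 ξ hξ η hη)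

theorem CH_en {X : ℂ → ℂ} {x₁ x₂ : ℝ} (hX : NiceH X x₁ x₂) :
    CH x₁ x₂ (π / 2) (fun ξ η => ‖X (pt ξ η) - 1‖ ^ 2) :=
  CH_comp hX.an.continuousOn (W := fun X => ‖X - 1‖ ^ 2) (by fun_prop)

theorem Eg_cont {X : ℂ → ℂ} {x₁ x₂ : ℝ} {g : ℝ → ℝ → ℝ} (hX : NiceH X x₁ x₂)
    (cg : CH x₁ x₂ (π / 2) g) :
    CH x₁ x₂ (π / 2) (fun ξ η => g ξ η * (1 + ‖X (pt ξ η) - 1‖ ^ 2)) :=
  cg.mul ((CH_const 1).add (CH_en hX))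

/-- `N` is null against weights -/
structure IsNullW (P : (ℂ → ℂ) → ℝ → ℝ → Prop) (N : (ℂ → ℂ) → ℝ → ℝ → ℝ)
    (K : (ℂ → ℂ) → ℝ → ℝ) : Prop where
  cN : ∀ (X : ℂ → ℂ) (x₁ x₂ : ℝ), NiceH X x₁ x₂ → CH x₁ x₂ (π / 2) (N X)
  cK : ∀ (X : ℂ → ℂ) (x₁ x₂ : ℝ), NiceH X x₁ x₂ → ContinuousOn (K X) (Icc x₁ x₂)
  le : ∃ C : ℝ, ∀ (X : ℂ → ℂ) (x₁ x₂ : ℝ) (Ω Ω₁ Ω₂ g : ℝ → ℝ → ℝ), x₁ ≤ x₂ →
    Wt x₁ x₂ Ω Ω₁ Ω₂ g → NiceH X x₁ x₂ → P X x₁ x₂ →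
    |IH x₁ x₂ (π / 2) (fun ξ η => Ω ξ η * N X ξ η) - ∫ ξ in x₁..x₂, Ω ξ (π / 2) * K X ξ| ≤
      C * Eg g X x₁ x₂

theorem pi2_mem : π / 2 ∈ Icc (0:ℝ) (π / 2) := ⟨by positivity, le_rfl⟩

theorem CH_line {x₁ x₂ η : ℝ} {F : ℝ → ℝ → ℝ} (hF : CH x₁ x₂ (π / 2) F)
    (hη : η ∈ Icc (0:ℝ) (π / 2)) : ContinuousOn (fun ξ => F ξ η) (Icc x₁ x₂) :=
  hF.comp (f := fun ξ : ℝ => (ξ, η)) (by fun_prop) fun _ hξ => ⟨hξ, hη⟩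

theorem CH_col {x₁ x₂ ξ : ℝ} {F : ℝ → ℝ → ℝ} (hF : CH x₁ x₂ (π / 2) F)
    (hξ : ξ ∈ Icc x₁ x₂) : ContinuousOn (fun η => F ξ η) (Icc 0 (π / 2)) :=
  hF.comp (f := fun η : ℝ => (ξ, η)) (by fun_prop) fun _ hη => ⟨hξ, hη⟩

variable {P : (ℂ → ℂ) → ℝ → ℝ → Prop}

theorem IsNullW.add {N N' : (ℂ → ℂ) → ℝ → ℝ → ℝ} {K K' : (ℂ → ℂ) → ℝ → ℝ} (h : IsNullW P N K)
    (h' : IsNullW P N' K') :
    IsNullW P (fun X ξ η => N X ξ η + N' X ξ η) (fun X ξ => K X ξ + K' X ξ) := by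
  refine ⟨fun X x₁ x₂ hX => (h.cN X x₁ x₂ hX).add (h'.cN X x₁ x₂ hX),
    fun X x₁ x₂ hX => (h.cK X x₁ x₂ hX).add (h'.cK X x₁ x₂ hX), ?_⟩
  obtain ⟨C, hC⟩ := h.le
  obtain ⟨C', hC'⟩ := h'.le
  refine ⟨C + C', fun X x₁ x₂ Ω Ω₁ Ω₂ g hx12 hw hX hP => ?_⟩
  have h1 := hC X x₁ x₂ Ω Ω₁ Ω₂ g hx12 hw hX hP
  have h2 := hC' X x₁ x₂ Ω Ω₁ Ω₂ g hx12 hw hX hP
  have a1 : CH x₁ x₂ (π / 2) (fun ξ η => Ω ξ η * N X ξ η) := hw.c0.mul (h.cN X x₁ x₂ hX)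
  have a2 : CH x₁ x₂ (π / 2) (fun ξ η => Ω ξ η * N' X ξ η) := hw.c0.mul (h'.cN X x₁ x₂ hX)
  have s1 : IH x₁ x₂ (π / 2) (fun ξ η => Ω ξ η * (N X ξ η + N' X ξ η)) =
      IH x₁ x₂ (π / 2) (fun ξ η => Ω ξ η * N X ξ η) +
      IH x₁ x₂ (π / 2) (fun ξ η => Ω ξ η * N' X ξ η) := by
    rw [← IH_add hx12 (by positivity) a1 a2]
    simp only [mul_add]
  have cl := CH_line hw.c0 pi2_mem
  have i1 : IntervalIntegrable (fun ξ => Ω ξ (π / 2) * K X ξ) volume x₁ x₂ :=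
    (cl.mul (h.cK X x₁ x₂ hX)).intervalIntegrable_of_Icc hx12
  have i2 : IntervalIntegrable (fun ξ => Ω ξ (π / 2) * K' X ξ) volume x₁ x₂ :=
    (cl.mul (h'.cK X x₁ x₂ hX)).intervalIntegrable_of_Icc hx12
  have s3 : ∫ ξ in x₁..x₂, Ω ξ (π / 2) * (K X ξ + K' X ξ) =
      (∫ ξ in x₁..x₂, Ω ξ (π / 2) * K X ξ) + ∫ ξ in x₁..x₂, Ω ξ (π / 2) * K' X ξ := by
    rw [← intervalIntegral.integral_add i1 i2]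
    simp only [mul_add]
  rw [s1, s3]
  rw [abs_le] at h1 h2 ⊢
  constructor <;> linarith [h1.1, h1.2, h2.1, h2.2, add_mul C C' (Eg g X x₁ x₂)]

theorem IsNullW.const_mul {N : (ℂ → ℂ) → ℝ → ℝ → ℝ} {K : (ℂ → ℂ) → ℝ → ℝ}
    (h : IsNullW P N K) (c : ℝ) :
    IsNullW P (fun X ξ η => c * N X ξ η) (fun X ξ => c * K X ξ) := by
  refine ⟨fun X x₁ x₂ hX => (CH_const c).mul (h.cN X x₁ x₂ hX),
    fun X x₁ x₂ hX => continuousOn_const.mul (h.cK X x₁ x₂ hX), ?_⟩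
  obtain ⟨C, hC⟩ := h.le
  refine ⟨|c| * C, fun X x₁ x₂ Ω Ω₁ Ω₂ g hx hw hX hP => ?_⟩
  have h1 := hC X x₁ x₂ Ω Ω₁ Ω₂ g hx hw hX hP
  have s1 : IH x₁ x₂ (π / 2) (fun ξ η => Ω ξ η * (c * N X ξ η)) =
      c * IH x₁ x₂ (π / 2) (fun ξ η => Ω ξ η * N X ξ η) := by
    rw [← IH_const_mul]
    simp only [mul_left_comm c]
  have s2 : ∫ ξ in x₁..x₂, Ω ξ (π / 2) * (c * K X ξ) =
      c * ∫ ξ in x₁..x₂, Ω ξ (π / 2) * K X ξ := by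
    rw [← intervalIntegral.integral_const_mul]
    simp only [mul_left_comm c]
  rw [s1, s2, ← mul_sub, abs_mul, mul_assoc]
  exact mul_le_mul_of_nonneg_left h1 (abs_nonneg c)

theorem IsNullW.zero : IsNullW P (fun _ _ _ => 0) (fun _ _ => 0) := by
  refine ⟨fun _ _ _ _ => CH_const 0, fun _ _ _ _ => continuousOn_const, ⟨0, ?_⟩⟩
  intro X x₁ x₂ Ω Ω₁ Ω₂ g hx hw hX hP
  simp [IH]

theorem IsNullW.sum {ι : Type} (s : Finset ι) {N : ι → (ℂ → ℂ) → ℝ → ℝ → ℝ}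
    {K : ι → (ℂ → ℂ) → ℝ → ℝ} (h : ∀ i ∈ s, IsNullW P (N i) (K i)) :
    IsNullW P (fun X ξ η => ∑ i ∈ s, N i X ξ η) (fun X ξ => ∑ i ∈ s, K i X ξ) := by
  classical
  induction s using Finset.induction_on with
  | empty => simpa using IsNullW.zero (P := P)
  | insert i s hi ih =>
    have h1 := (h i (Finset.mem_insert_self i s)).add
      (ih fun j hj => h j (Finset.mem_insert_of_mem hj))
    simpa only [Finset.sum_insert hi] using h1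

theorem IsNullW.congr {N N' : (ℂ → ℂ) → ℝ → ℝ → ℝ} {K K' : (ℂ → ℂ) → ℝ → ℝ}
    (h : IsNullW P N K) (hN : ∀ X ξ η, N X ξ η = N' X ξ η) (hK : ∀ X ξ, K X ξ = K' X ξ) :
    IsNullW P N' K' := by
  have e1 : N = N' := by
    funext X ξ η
    exact hN X ξ η
  have e2 : K = K' := by
    funext X ξ
    exact hK X ξ
  rw [← e1, ← e2]
  exact h

theorem IsNullW.mono {P' : (ℂ → ℂ) → ℝ → ℝ → Prop} (hPP : ∀ X x₁ x₂, P' X x₁ x₂ → P X x₁ x₂)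
    {N : (ℂ → ℂ) → ℝ → ℝ → ℝ} {K : (ℂ → ℂ) → ℝ → ℝ} (h : IsNullW P N K) : IsNullW P' N K := by
  refine ⟨h.cN, h.cK, ?_⟩
  obtain ⟨C, hC⟩ := h.le
  exact ⟨C, fun X x₁ x₂ Ω Ω₁ Ω₂ g hx hw hX hP => hC X x₁ x₂ Ω Ω₁ Ω₂ g hx hw hX (hPP _ _ _ hP)⟩

/-- the sum over a list -/
theorem IsNullW.list {ι : Type} (L : List ι) {N : ι → (ℂ → ℂ) → ℝ → ℝ → ℝ}
    {K : ι → (ℂ → ℂ) → ℝ → ℝ} (h : ∀ i ∈ L, IsNullW P (N i) (K i)) :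
    IsNullW P (fun X ξ η => (L.map fun i => N i X ξ η).sum)
      (fun X ξ => (L.map fun i => K i X ξ).sum) := by
  induction L with
  | nil => simpa using IsNullW.zero (P := P)
  | cons i L ih =>
    have h1 := (h i (by simp)).add (ih fun j hj => h j (by simp [hj]))
    simpa only [List.map_cons, List.sum_cons] using h1

/-- the error of an integral with a density bounded by `g (1 + |X - 1|²)` -/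
theorem err_le {X : ℂ → ℂ} {x₁ x₂ : ℝ} {F g : ℝ → ℝ → ℝ} (hx : x₁ ≤ x₂) (hX : NiceH X x₁ x₂)
    (cF : CH x₁ x₂ (π / 2) F) (cg : CH x₁ x₂ (π / 2) g) {C : ℝ}
    (h : ∀ ξ ∈ Icc x₁ x₂, ∀ η ∈ Icc (0:ℝ) (π / 2),
      |F ξ η| ≤ C * (g ξ η * (1 + ‖X (pt ξ η) - 1‖ ^ 2))) :
    |IH x₁ x₂ (π / 2) F| ≤ C * Eg g X x₁ x₂ := by
  have hpi : (0:ℝ) ≤ π / 2 := by positivity
  have cG : CH x₁ x₂ (π / 2) (fun ξ η => C * (g ξ η * (1 + ‖X (pt ξ η) - 1‖ ^ 2))) :=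
    (CH_const C).mul (Eg_cont hX cg)
  have e : IH x₁ x₂ (π / 2) (fun ξ η => C * (g ξ η * (1 + ‖X (pt ξ η) - 1‖ ^ 2))) =
      C * Eg g X x₁ x₂ := by
    rw [IH_const_mul]
    rfl
  rw [abs_le]
  constructor
  · have h1 := IH_mono hx hpi (cG.neg) cF fun ξ hξ η hη => (abs_le.1 (h ξ hξ η hη)).1
    have h2 : IH x₁ x₂ (π / 2) (fun ξ η => - (C * (g ξ η * (1 + ‖X (pt ξ η) - 1‖ ^ 2)))) =
        - IH x₁ x₂ (π / 2) (fun ξ η => C * (g ξ η * (1 + ‖X (pt ξ η) - 1‖ ^ 2))) := by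
      have := IH_const_mul (x₁ := x₁) (x₂ := x₂) (h := π / 2) (-1)
        (fun ξ η => C * (g ξ η * (1 + ‖X (pt ξ η) - 1‖ ^ 2)))
      simpa using this
    rw [h2, e] at h1
    linarith
  · have h1 := IH_mono hx hpi cF cG fun ξ hξ η hη => (abs_le.1 (h ξ hξ η hη)).2
    rw [e] at h1
    linarith

/-- derivatives in the direction of `ξ` -/
theorem isNullW_xi {F F₁ : (ℂ → ℂ) → ℝ → ℝ → ℝ}
    (cF : ∀ (X : ℂ → ℂ) (x₁ x₂ : ℝ), NiceH X x₁ x₂ → CH x₁ x₂ (π / 2) (F X))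
    (cF₁ : ∀ (X : ℂ → ℂ) (x₁ x₂ : ℝ), NiceH X x₁ x₂ → CH x₁ x₂ (π / 2) (F₁ X))
    (hd : ∀ (X : ℂ → ℂ) (x₁ x₂ : ℝ), NiceH X x₁ x₂ → ∀ ξ ∈ Icc x₁ x₂, ∀ η ∈ Icc (0:ℝ) (π / 2),
      HasDerivAt (fun ξ => F X ξ η) (F₁ X ξ η) ξ) {C : ℝ}
    (hC : ∀ (X : ℂ → ℂ) (x₁ x₂ : ℝ), x₁ ≤ x₂ → NiceH X x₁ x₂ → P X x₁ x₂ →
      ∀ ξ ∈ Icc x₁ x₂, ∀ η ∈ Icc (0:ℝ) (π / 2),
        |F X ξ η| ≤ C * Real.sin η * (1 + ‖X (pt ξ η) - 1‖ ^ 2)) :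
    IsNullW P F₁ (fun _ _ => 0) := by
  refine ⟨cF₁, fun _ _ _ _ => continuousOn_const, |C|,
    fun X x₁ x₂ Ω Ω₁ Ω₂ g hx12 hw hX hP => ?_⟩
  have hpi : (0:ℝ) ≤ π / 2 := by positivity
  have c1 : CH x₁ x₂ (π / 2) (fun ξ η => Ω ξ η * F₁ X ξ η) := hw.c0.mul (cF₁ X x₁ x₂ hX)
  have c2 : CH x₁ x₂ (π / 2) (fun ξ η => Ω₁ ξ η * F X ξ η) := hw.c1.mul (cF X x₁ x₂ hX)
  have h1 : IH x₁ x₂ (π / 2) (fun ξ η => Ω ξ η * F₁ X ξ η) =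
      - IH x₁ x₂ (π / 2) (fun ξ η => Ω₁ ξ η * F X ξ η) := by
    rw [IH_swap hx12 hpi c1, IH_swap hx12 hpi c2, ← intervalIntegral.integral_neg]
    refine intervalIntegral.integral_congr fun η hη => ?_
    rw [uIcc_of_le hpi] at hη
    have i1 : IntervalIntegrable (fun ξ => Ω₁ ξ η * F X ξ η) volume x₁ x₂ :=
      (CH_line c2 hη).intervalIntegrable_of_Icc hx12
    have i2 : IntervalIntegrable (fun ξ => Ω ξ η * F₁ X ξ η) volume x₁ x₂ :=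
      (CH_line c1 hη).intervalIntegrable_of_Icc hx12
    have h2 := intervalIntegral.integral_eq_sub_of_hasDerivAt
      (f := fun ξ => Ω ξ η * F X ξ η) (f' := fun ξ => Ω₁ ξ η * F X ξ η + Ω ξ η * F₁ X ξ η)
      (a := x₁) (b := x₂) (fun ξ hξ => by
        rw [uIcc_of_le hx12] at hξ
        exact (hw.d1 ξ hξ η hη).mul (hd X x₁ x₂ hX ξ hξ η hη)) (i1.add i2)
    rw [intervalIntegral.integral_add i1 i2, hw.e1 η hη, hw.e2 η hη] at h2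
    linarith
  rw [h1]
  simp only [mul_zero, intervalIntegral.integral_zero, sub_zero, abs_neg]
  refine err_le hx12 hX c2 hw.cg ?_
  intro ξ hξ η hη
  rw [abs_mul]
  have h2 := hC X x₁ x₂ hx12 hX hP ξ hξ η hη
  have h3 := hw.g1 ξ hξ η hη
  have hs := sin_nn hη
  have hn : 0 ≤ 1 + ‖X (pt ξ η) - 1‖ ^ 2 := by positivity
  have h4 : |F X ξ η| ≤ |C| * Real.sin η * (1 + ‖X (pt ξ η) - 1‖ ^ 2) :=
    h2.trans (mul_le_mul_of_nonneg_right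
      (mul_le_mul_of_nonneg_right (le_abs_self C) hs) hn)
  calc |Ω₁ ξ η| * |F X ξ η| ≤ |Ω₁ ξ η| * (|C| * Real.sin η * (1 + ‖X (pt ξ η) - 1‖ ^ 2)) :=
        mul_le_mul_of_nonneg_left h4 (abs_nonneg _)
    _ = |C| * ((|Ω₁ ξ η| * Real.sin η) * (1 + ‖X (pt ξ η) - 1‖ ^ 2)) := by ring
    _ ≤ |C| * (g ξ η * (1 + ‖X (pt ξ η) - 1‖ ^ 2)) :=
        mul_le_mul_of_nonneg_left (mul_le_mul_of_nonneg_right h3 hn) (abs_nonneg C)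

/-- derivatives in the direction of `η` -/
theorem isNullW_eta {F F₂ : (ℂ → ℂ) → ℝ → ℝ → ℝ}
    (cF : ∀ (X : ℂ → ℂ) (x₁ x₂ : ℝ), NiceH X x₁ x₂ → CH x₁ x₂ (π / 2) (F X))
    (cF₂ : ∀ (X : ℂ → ℂ) (x₁ x₂ : ℝ), NiceH X x₁ x₂ → CH x₁ x₂ (π / 2) (F₂ X))
    (hd : ∀ (X : ℂ → ℂ) (x₁ x₂ : ℝ), NiceH X x₁ x₂ → ∀ ξ ∈ Icc x₁ x₂, ∀ η ∈ Icc (0:ℝ) (π / 2),
      HasDerivAt (fun η => F X ξ η) (F₂ X ξ η) η)
    (h0 : ∀ (X : ℂ → ℂ) (ξ : ℝ), F X ξ 0 = 0) {C : ℝ}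
    (hC : ∀ (X : ℂ → ℂ) (x₁ x₂ : ℝ), x₁ ≤ x₂ → NiceH X x₁ x₂ → P X x₁ x₂ →
      ∀ ξ ∈ Icc x₁ x₂, ∀ η ∈ Icc (0:ℝ) (π / 2),
        |F X ξ η| ≤ C * Real.sin η * (1 + ‖X (pt ξ η) - 1‖ ^ 2)) :
    IsNullW P F₂ (fun X ξ => F X ξ (π / 2)) := by
  have hpi : (0:ℝ) ≤ π / 2 := by positivity
  refine ⟨cF₂, fun X x₁ x₂ hX => (cF X x₁ x₂ hX).comp (f := fun ξ : ℝ => (ξ, π / 2))
    (by fun_prop) fun ξ hξ => ⟨hξ, hpi, le_rfl⟩, |C|,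
    fun X x₁ x₂ Ω Ω₁ Ω₂ g hx12 hw hX hP => ?_⟩
  have c1 : CH x₁ x₂ (π / 2) (fun ξ η => Ω ξ η * F₂ X ξ η) := hw.c0.mul (cF₂ X x₁ x₂ hX)
  have c2 : CH x₁ x₂ (π / 2) (fun ξ η => Ω₂ ξ η * F X ξ η) := hw.c2.mul (cF X x₁ x₂ hX)
  have h1 : IH x₁ x₂ (π / 2) (fun ξ η => Ω₂ ξ η * F X ξ η + Ω ξ η * F₂ X ξ η) =
      ∫ ξ in x₁..x₂, Ω ξ (π / 2) * F X ξ (π / 2) := by
    unfold IH
    refine intervalIntegral.integral_congr fun ξ hξ => ?_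
    rw [uIcc_of_le hx12] at hξ
    have i1 : IntervalIntegrable (fun η => Ω₂ ξ η * F X ξ η) volume 0 (π / 2) :=
      (CH_col c2 hξ).intervalIntegrable_of_Icc hpi
    have i2 : IntervalIntegrable (fun η => Ω ξ η * F₂ X ξ η) volume 0 (π / 2) :=
      (CH_col c1 hξ).intervalIntegrable_of_Icc hpi
    have h2 := intervalIntegral.integral_eq_sub_of_hasDerivAt
      (f := fun η => Ω ξ η * F X ξ η) (f' := fun η => Ω₂ ξ η * F X ξ η + Ω ξ η * F₂ X ξ η)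
      (a := 0) (b := π / 2) (fun η hη => by
        rw [uIcc_of_le hpi] at hη
        exact (hw.d2 ξ hξ η hη).mul (hd X x₁ x₂ hX ξ hξ η hη)) (i1.add i2)
    simp only
    rw [h2, h0, mul_zero, sub_zero]
  rw [IH_add hx12 hpi c2 c1] at h1
  have h3 : IH x₁ x₂ (π / 2) (fun ξ η => Ω ξ η * F₂ X ξ η) -
      (∫ ξ in x₁..x₂, Ω ξ (π / 2) * F X ξ (π / 2)) =
      - IH x₁ x₂ (π / 2) (fun ξ η => Ω₂ ξ η * F X ξ η) := by linarith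
  rw [h3, abs_neg]
  refine err_le hx12 hX c2 hw.cg ?_
  intro ξ hξ η hη
  rw [abs_mul]
  have h2 := hC X x₁ x₂ hx12 hX hP ξ hξ η hη
  have h3 := hw.g2 ξ hξ η hη
  have hs := sin_nn hη
  have hn : 0 ≤ 1 + ‖X (pt ξ η) - 1‖ ^ 2 := by positivity
  have h4 : |F X ξ η| ≤ |C| * Real.sin η * (1 + ‖X (pt ξ η) - 1‖ ^ 2) :=
    h2.trans (mul_le_mul_of_nonneg_right
      (mul_le_mul_of_nonneg_right (le_abs_self C) hs) hn)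
  calc |Ω₂ ξ η| * |F X ξ η| ≤ |Ω₂ ξ η| * (|C| * Real.sin η * (1 + ‖X (pt ξ η) - 1‖ ^ 2)) :=
        mul_le_mul_of_nonneg_left h4 (abs_nonneg _)
    _ = |C| * ((|Ω₂ ξ η| * Real.sin η) * (1 + ‖X (pt ξ η) - 1‖ ^ 2)) := by ring
    _ ≤ |C| * (g ξ η * (1 + ‖X (pt ξ η) - 1‖ ^ 2)) :=
        mul_le_mul_of_nonneg_left (mul_le_mul_of_nonneg_right h3 hn) (abs_nonneg C)

end Pool.Agent.Helper84.CK
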