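import Pool.Agent.Helper69.EK7.Pot
import Pool.Agent.Helper84.CK.NullW
set_option autoImplicit false
open Complex MeasureTheory Metric Set
open scoped Real ComplexConjugate

/-!
# Project CK: null Lagrangians of fields `a(η) H(X) f conj h` against weights
-/

namespace Pool.Agent.Helper84.CK

open Pool.Agent.Helper52.EK Pool.Agent.Helper69.EK3 Pool.Agent.Helper69.EK7

variable {P : (ℂ → ℂ) → ℝ → ℝ → Prop}

theorem isNullW_A {H Hx Hy : ℂ → ℂ} (hH : C1c H Hx Hy) {f h : (ℂ → ℂ) → ℂ → ℂ} (hf : AnF f)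
    (hh : AnF h) {a a₁ : ℝ → ℝ} (g1 : ∀ η, HasDerivAt a (a₁ η) η) (g1c : Continuous a₁)
    (f1 : a 0 = 0) {C : ℝ}
    (hC : ∀ (X : ℂ → ℂ) (x₁ x₂ : ℝ), x₁ ≤ x₂ → NiceH X x₁ x₂ → P X x₁ x₂ →
      ∀ ξ ∈ Icc x₁ x₂, ∀ η ∈ Icc (0:ℝ) (π / 2),
        ‖FA a H f h X ξ η‖ ≤ C * Real.sin η * (1 + ‖X (pt ξ η) - 1‖ ^ 2)) :
    IsNullW P (NF a a₁ H Hx Hy f h) (fun X ξ => - (FA a H f h X ξ (π / 2)).im) := by
  have ca : Continuous a := continuous_iff_continuousAt.2 fun t => (g1 t).continuousAt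
  -- continuity
  have cX : ∀ (X : ℂ → ℂ) (x₁ x₂ : ℝ), NiceH X x₁ x₂ →
      ContinuousOn (fun p : ℝ × ℝ => X (pt p.1 p.2)) (Icc x₁ x₂ ×ˢ Icc 0 (π / 2)) :=
    fun X x₁ x₂ hX => contH hX.an.continuousOn
  have mX : ∀ (X : ℂ → ℂ) (x₁ x₂ : ℝ), NiceH X x₁ x₂ →
      MapsTo (fun p : ℝ × ℝ => X (pt p.1 p.2)) (Icc x₁ x₂ ×ˢ Icc 0 (π / 2)) {X | X ≠ 0} :=
    fun X x₁ x₂ hX p hp => hX.ne _ (pt_mem_RectH hp.1 hp.2)
  have i2 : ∀ x₁ x₂ : ℝ, ContinuousOn (fun p : ℝ × ℝ => ((a p.2 : ℝ) : ℂ))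
      (Icc x₁ x₂ ×ˢ Icc 0 (π / 2)) := fun _ _ =>
    (Complex.continuous_ofReal.comp (ca.comp continuous_snd)).continuousOn
  have i3 : ∀ x₁ x₂ : ℝ, ContinuousOn (fun p : ℝ × ℝ => ((a₁ p.2 : ℝ) : ℂ))
      (Icc x₁ x₂ ×ˢ Icc 0 (π / 2)) := fun _ _ =>
    (Complex.continuous_ofReal.comp (g1c.comp continuous_snd)).continuousOn
  have cFA : ∀ (X : ℂ → ℂ) (x₁ x₂ : ℝ), NiceH X x₁ x₂ →
      ContinuousOn (fun p : ℝ × ℝ => FA a H f h X p.1 p.2) (Icc x₁ x₂ ×ˢ Icc 0 (π / 2)) := by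
    intro X x₁ x₂ hX
    unfold FA
    exact (((i2 x₁ x₂).mul (hH.cont.comp (cX X x₁ x₂ hX) (mX X x₁ x₂ hX))).mul
      (contH (hf X x₁ x₂ hX).continuousOn)).mul
      (Complex.continuous_conj.comp_continuousOn (contH (hh X x₁ x₂ hX).continuousOn))
  have cFA1 : ∀ (X : ℂ → ℂ) (x₁ x₂ : ℝ), NiceH X x₁ x₂ →
      ContinuousOn (fun p : ℝ × ℝ => FA1 a H Hx Hy f h X p.1 p.2)
        (Icc x₁ x₂ ×ˢ Icc 0 (π / 2)) := by
    intro X x₁ x₂ hX
    have cY := contH hX.an.deriv.continuousOn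
    have cf := contH (hf X x₁ x₂ hX).continuousOn
    have cf1 := contH (hf X x₁ x₂ hX).deriv.continuousOn
    have ch := Complex.continuous_conj.comp_continuousOn (contH (hh X x₁ x₂ hX).continuousOn)
    have ch1 := Complex.continuous_conj.comp_continuousOn
      (contH (hh X x₁ x₂ hX).deriv.continuousOn)
    have c0 := hH.cont.comp (cX X x₁ x₂ hX) (mX X x₁ x₂ hX)
    have cx := hH.cx.comp (cX X x₁ x₂ hX) (mX X x₁ x₂ hX)
    have cy := hH.cy.comp (cX X x₁ x₂ hX) (mX X x₁ x₂ hX)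
    have yr := (Complex.continuous_ofReal.comp Complex.continuous_re).comp_continuousOn cY
    have yi := (Complex.continuous_ofReal.comp Complex.continuous_im).comp_continuousOn cY
    unfold FA1
    exact (i2 x₁ x₂).mul ((((((cx.mul yr).add (cy.mul yi)).mul cf).add (c0.mul cf1)).mul
      ch).add ((c0.mul cf).mul ch1))
  have cFA2 : ∀ (X : ℂ → ℂ) (x₁ x₂ : ℝ), NiceH X x₁ x₂ →
      ContinuousOn (fun p : ℝ × ℝ => FA2 a a₁ H Hx Hy f h X p.1 p.2)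
        (Icc x₁ x₂ ×ˢ Icc 0 (π / 2)) := by
    intro X x₁ x₂ hX
    have cY : ContinuousOn (fun p : ℝ × ℝ => I * deriv X (pt p.1 p.2))
        (Icc x₁ x₂ ×ˢ Icc 0 (π / 2)) := continuousOn_const.mul (contH hX.an.deriv.continuousOn)
    have cf := contH (hf X x₁ x₂ hX).continuousOn
    have cf1 : ContinuousOn (fun p : ℝ × ℝ => I * deriv (f X) (pt p.1 p.2))
        (Icc x₁ x₂ ×ˢ Icc 0 (π / 2)) :=
      continuousOn_const.mul (contH (hf X x₁ x₂ hX).deriv.continuousOn)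
    have ch := Complex.continuous_conj.comp_continuousOn (contH (hh X x₁ x₂ hX).continuousOn)
    have ch1' : ContinuousOn (fun p : ℝ × ℝ => I * deriv (h X) (pt p.1 p.2))
        (Icc x₁ x₂ ×ˢ Icc 0 (π / 2)) :=
      continuousOn_const.mul (contH (hh X x₁ x₂ hX).deriv.continuousOn)
    have ch1 := Complex.continuous_conj.comp_continuousOn ch1'
    have c0 := hH.cont.comp (cX X x₁ x₂ hX) (mX X x₁ x₂ hX)
    have cx := hH.cx.comp (cX X x₁ x₂ hX) (mX X x₁ x₂ hX)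
    have cy := hH.cy.comp (cX X x₁ x₂ hX) (mX X x₁ x₂ hX)
    have yr := (Complex.continuous_ofReal.comp Complex.continuous_re).comp_continuousOn cY
    have yi := (Complex.continuous_ofReal.comp Complex.continuous_im).comp_continuousOn cY
    unfold FA2
    exact ((i3 x₁ x₂).mul ((c0.mul cf).mul ch)).add ((i2 x₁ x₂).mul
      ((((((cx.mul yr).add (cy.mul yi)).mul cf).add (c0.mul cf1)).mul ch).add
      ((c0.mul cf).mul ch1)))
  -- the direction of `ξ`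
  have N1 := isNullW_xi (P := P) (F := fun X ξ η => (FA a H f h X ξ η).re)
    (F₁ := fun X ξ η => (FA1 a H Hx Hy f h X ξ η).re)
    (fun X x₁ x₂ hX => Complex.continuous_re.comp_continuousOn (cFA X x₁ x₂ hX))
    (fun X x₁ x₂ hX => Complex.continuous_re.comp_continuousOn (cFA1 X x₁ x₂ hX))
    (by
      intro X x₁ x₂ hX ξ hξ η hη
      have hm := pt_mem_RectH hξ hη
      have dX := d_xi (hX.an _ hm).differentiableAt
      have df := d_xi (hf X x₁ x₂ hX _ hm).differentiableAt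
      have dh := d_xi (hh X x₁ x₂ hX _ hm).differentiableAt
      have dH := d_H hH (g := fun ξ => X (pt ξ η)) (t := ξ) (hX.ne _ hm) dX
      have hd := d_re ((((hasDerivAt_const ξ ((a η : ℝ) : ℂ)).mul dH).mul df).mul (d_conj dh))
      refine (hd.congr_deriv ?_)
      congr 1
      simp only [Pi.mul_apply]
      unfold FA1
      ring)
    (fun X x₁ x₂ hx hX hP ξ hξ η hη =>
      (abs_re_le_norm _).trans (hC X x₁ x₂ hx hX hP ξ hξ η hη))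
  -- the direction of `η`
  have N2 := isNullW_eta (P := P) (F := fun X ξ η => (FA a H f h X ξ η).im)
    (F₂ := fun X ξ η => (FA2 a a₁ H Hx Hy f h X ξ η).im)
    (fun X x₁ x₂ hX => Complex.continuous_im.comp_continuousOn (cFA X x₁ x₂ hX))
    (fun X x₁ x₂ hX => Complex.continuous_im.comp_continuousOn (cFA2 X x₁ x₂ hX))
    (by
      intro X x₁ x₂ hX ξ hξ η hη
      have hm := pt_mem_RectH hξ hη
      have dX := d_eta (hX.an _ hm).differentiableAt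
      have df := d_eta (hf X x₁ x₂ hX _ hm).differentiableAt
      have dh := d_eta (hh X x₁ x₂ hX _ hm).differentiableAt
      have dH := d_H hH (g := fun η => X (pt ξ η)) (t := η) (hX.ne _ hm) dX
      have hd := d_im ((((g1 η).ofReal_comp.mul dH).mul df).mul (d_conj dh))
      refine (hd.congr_deriv ?_)
      congr 1
      simp only [Pi.mul_apply]
      unfold FA2
      ring)
    (fun X ξ => by
      unfold FA
      rw [f1]
      simp)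
    (fun X x₁ x₂ hx hX hP ξ hξ η hη =>
      (abs_im_le_norm _).trans (hC X x₁ x₂ hx hX hP ξ hξ η hη))
  refine (N1.add (N2.const_mul (-1))).congr (fun X ξ η => FA_sum a a₁ H Hx Hy f h X ξ η)
    fun X ξ => by ring

/-- the integrands of the families with one analytic factor -/
theorem NF_eq_NG (a a₁ : ℝ → ℝ) (H Hx Hy : ℂ → ℂ) (f : (ℂ → ℂ) → ℂ → ℂ) (X : ℂ → ℂ) (ξ η : ℝ) :
    NF a a₁ H Hx Hy f (fun _ _ => 1) X ξ η =
      NG a a₁ H Hx Hy (X (pt ξ η)) (deriv X (pt ξ η)) (f X (pt ξ η)) η := by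
  have e : deriv (fun _ : ℂ => (1:ℂ)) (pt ξ η) = 0 := by simp
  unfold NF NG
  rw [e]
  generalize H (X (pt ξ η)) = h0
  generalize Hx (X (pt ξ η)) = hx
  generalize Hy (X (pt ξ η)) = hy
  generalize deriv X (pt ξ η) = Y
  generalize f X (pt ξ η) = f0
  simp only [mul_re, mul_im, add_re, add_im, conj_re, conj_im, ofReal_re, ofReal_im, I_re, I_im,
    re_ofNat, im_ofNat, map_one, map_zero, one_re, one_im, zero_re, zero_im]
  ring

theorem anF_q (j : ℕ) : AnF (fun X ω => (deriv X ω / X ω) ^ j) := fun _ _ _ hX ω hω =>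
  ((hX.an.deriv ω hω).div (hX.an ω hω) (hX.ne ω hω)).pow j

theorem anF_one : AnF (fun _ _ => 1) := fun _ _ _ _ _ _ => analyticAt_const

theorem anF_Y : AnF (fun X ω => deriv X ω) := fun _ _ _ hX ω hω => hX.an.deriv ω hω

/-- the family with one analytic factor -/
theorem isNullW_G {H Hx Hy : ℂ → ℂ} (hH : C1c H Hx Hy) {f : (ℂ → ℂ) → ℂ → ℂ} (hf : AnF f)
    {a a₁ : ℝ → ℝ} (g1 : ∀ η, HasDerivAt a (a₁ η) η) (g1c : Continuous a₁)
    (f1 : a 0 = 0) {C : ℝ}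
    (hC : ∀ (X : ℂ → ℂ) (x₁ x₂ : ℝ), x₁ ≤ x₂ → NiceH X x₁ x₂ → P X x₁ x₂ →
      ∀ ξ ∈ Icc x₁ x₂, ∀ η ∈ Icc (0:ℝ) (π / 2),
        |a η| * (‖H (X (pt ξ η))‖ * ‖f X (pt ξ η)‖) ≤
          C * Real.sin η * (1 + ‖X (pt ξ η) - 1‖ ^ 2)) :
    IsNullW P (fun X ξ η => NG a a₁ H Hx Hy (X (pt ξ η)) (deriv X (pt ξ η)) (f X (pt ξ η)) η)
      (fun X ξ => - (a (π / 2) * (H (X (pt ξ (π / 2))) * f X (pt ξ (π / 2))).im)) := by
  refine (isNullW_A (P := P) hH hf anF_one g1 g1c f1 (C := C) ?_).congr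
    (fun X ξ η => NF_eq_NG a a₁ H Hx Hy f X ξ η) ?_
  · intro X x₁ x₂ hx hX hP ξ hξ η hη
    have h := hC X x₁ x₂ hx hX hP ξ hξ η hη
    unfold FA
    rw [norm_mul, norm_mul, norm_mul, norm_real, Real.norm_eq_abs, map_one, norm_one, mul_one,
      mul_assoc]
    exact h
  · intro X ξ
    unfold FA
    rw [map_one, mul_one, mul_assoc, im_ofReal_mul]

/-- fields `a(η) H(X) (X'/X) ^ j` -/
theorem isNullW_P {H Hx Hy : ℂ → ℂ} (hH : C1c H Hx Hy) (j : ℕ) {a a₁ : ℝ → ℝ}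
    (g1 : ∀ η, HasDerivAt a (a₁ η) η) (g1c : Continuous a₁) (f1 : a 0 = 0) {C C₀ M : ℝ}
    (hC : 0 ≤ C) (hM : 0 ≤ M)
    (ha : ∀ η ∈ Icc (0:ℝ) (π / 2), |a η| ≤ M * Real.sin η ^ (j + 1))
    (bF : ∀ X : ℂ, ‖H X‖ ≤ C * (1 + ‖X - 1‖ ^ 2))
    (hq : ∀ (X : ℂ → ℂ) (x₁ x₂ : ℝ), x₁ ≤ x₂ → NiceH X x₁ x₂ → P X x₁ x₂ →
      ∀ ξ ∈ Icc x₁ x₂, ∀ η ∈ Icc (0:ℝ) (π / 2),
        Real.sin η * ‖deriv X (pt ξ η) / X (pt ξ η)‖ ≤ C₀) :
    IsNullW P (fun X ξ η => NG a a₁ H Hx Hy (X (pt ξ η)) (deriv X (pt ξ η))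
        ((deriv X (pt ξ η) / X (pt ξ η)) ^ j) η)
      (fun X ξ => - (a (π / 2) * (H (X (pt ξ (π / 2))) *
        (deriv X (pt ξ (π / 2)) / X (pt ξ (π / 2))) ^ j).im)) := by
  refine isNullW_G hH (anF_q j) g1 g1c f1 (C := M * (C * C₀ ^ j)) ?_
  intro X x₁ x₂ hx12 hX hP ξ hξ η hη
  have hq1 := hq X x₁ x₂ hx12 hX hP ξ hξ η hη
  have hs := sin_nn hη
  obtain ⟨Z, hZ⟩ : ∃ Z, Z = X (pt ξ η) := ⟨_, rfl⟩
  obtain ⟨Y, hY⟩ : ∃ Y, Y = deriv X (pt ξ η) := ⟨_, rfl⟩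
  rw [← hZ, ← hY] at hq1 ⊢
  rw [norm_pow]
  have h3 : (Real.sin η * ‖Y / Z‖) ^ j ≤ C₀ ^ j :=
    pow_le_pow_left₀ (mul_nonneg hs (norm_nonneg _)) hq1 j
  calc |a η| * (‖H Z‖ * ‖Y / Z‖ ^ j) ≤ (M * Real.sin η ^ (j + 1)) * (‖H Z‖ * ‖Y / Z‖ ^ j) :=
        mul_le_mul_of_nonneg_right (ha η hη) (by positivity)
    _ = M * Real.sin η * (‖H Z‖ * (Real.sin η * ‖Y / Z‖) ^ j) := by rw [mul_pow, pow_succ]; ring
    _ ≤ M * Real.sin η * ((C * (1 + ‖Z - 1‖ ^ 2)) * C₀ ^ j) := by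
        refine mul_le_mul_of_nonneg_left ?_ (mul_nonneg hM hs)
        exact mul_le_mul (bF Z) h3 (pow_nonneg (mul_nonneg hs (norm_nonneg _)) j)
          (mul_nonneg hC (by positivity))
    _ = M * (C * C₀ ^ j) * Real.sin η * (1 + ‖Z - 1‖ ^ 2) := by ring

end Pool.Agent.Helper84.CK
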