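import Pool.Agent.Helper84.CK.KOneW
import Pool.Agent.Helper69.CK.Frame
set_option autoImplicit false
open Complex MeasureTheory Metric Set
open scoped Real ComplexConjugate

/-!
# Project CK: the bound for one target from a pointwise certificate with the critical multiplier
-/

namespace Pool.Agent.Helper84.CK

open Pool.Agent.Helper39.Area Pool.Agent.Helper52.EK Pool.Agent.Helper69.EK3
open Pool.Agent.Helper69.EK7 Pool.Agent.Helper69.CK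

/-! ### the term of the multiplier -/

theorem Mt_contOn {M : ℂ → ℂ} (hM : Continuous M) (q : ℝ) {X : ℂ → ℂ} {S : Set (ℝ × ℝ)}
    (h1 : ContinuousOn (fun p : ℝ × ℝ => X (pt p.1 p.2)) S)
    (h2 : ContinuousOn (fun p : ℝ × ℝ => deriv X (pt p.1 p.2)) S)
    (h0 : ∀ p ∈ S, X (pt p.1 p.2) ≠ 0) :
    ContinuousOn (fun p : ℝ × ℝ => Mt M q X p.1 p.2) S := by
  have h3 := h2.div h1 h0
  have h4 : ContinuousOn (fun p : ℝ × ℝ => e0 (Real.sin p.2) (Real.cos p.2)) S := by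
    apply Continuous.continuousOn
    unfold e0
    fun_prop
  have h5 : ContinuousOn (fun p : ℝ × ℝ => mX (X (pt p.1 p.2)) (deriv X (pt p.1 p.2))
      (Real.sin p.2) (Real.cos p.2)) S := by
    unfold mX
    exact ((continuousOn_const.add h4).mul
      (((continuousOn_const.mul h1).sub continuousOn_const).add h3)).sub continuousOn_const
  unfold Mt
  exact Complex.continuous_re.comp_continuousOn (((hM.comp_continuousOn h5).mul h4).mul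
    ((h1.pow 2).sub continuousOn_const))

theorem Mt_cont_H {M : ℂ → ℂ} (hM : Continuous M) (q : ℝ) (X : ℂ → ℂ) (x₁ x₂ : ℝ)
    (hX : NiceH X x₁ x₂) : CH x₁ x₂ (π / 2) (Mt M q X) :=
  Mt_contOn hM q (contH hX.an.continuousOn) (contH hX.an.deriv.continuousOn)
    fun _ hp => hX.ne _ (pt_mem_RectH hp.1 hp.2)

theorem Mt_cont_X {M : ℂ → ℂ} (hM : Continuous M) (q : ℝ) (X : ℂ → ℂ) (x₁ x₂ : ℝ)
    (hX : NiceX X x₁ x₂) : CH x₁ x₂ π (Mt M q X) :=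
  Mt_contOn hM q (contH (h := π) hX.an.continuousOn) (contH (h := π) hX.an.deriv.continuousOn)
    fun _ hp => hX.ne _ (pt_mem_RectH hp.1 hp.2)

theorem Mt_mirror {M : ℂ → ℂ} (hMc : ∀ m, M (conj m) = conj (M m)) (q : ℝ) (X : ℂ → ℂ)
    (x₁ x₂ : ℝ) (hX : NiceX X x₁ x₂) (ξ : ℝ) (hξ : ξ ∈ Icc x₁ x₂) (η : ℝ)
    (hη : η ∈ Icc (0:ℝ) (π / 2)) : Mt M q X ξ (π - η) = Mt M q (mir X) ξ η := by
  have hm : pt ξ (π - η) ∈ Rect x₁ x₂ := by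
    have := mir_mem (pt_mem_RectH hξ hη)
    rwa [conj_pt] at this
  have hA : AnalyticAt ℂ X (pt ξ (π - η)) := hX.an _ hm
  unfold Mt
  rw [mir_pt, mir_deriv_pt hA.differentiableAt, mX_conj, hMc, Real.sin_pi_sub, Real.cos_pi_sub]
  have e1 : e0 (Real.sin η) (Real.cos η) = conj (e0 (Real.sin η) (-Real.cos η)) := by
    rw [e0_neg, Complex.conj_conj]
  rw [e1, ← Complex.conj_re]
  congr 1
  simp

theorem T2_le4 {G : ℂ → ℂ → ℂ} {L : ℝ} (hG : GLip2 G L) (X : ℂ → ℂ) (ξ η : ℝ) :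
    T2 G X ξ η ≤ 4 := by
  unfold T2 TG2
  have h1 := hG.le_one (mX (X (pt ξ η)) (deriv X (pt ξ η)) (Real.sin η) (Real.cos η))
    (tX (X (pt ξ η)) (deriv X (pt ξ η)) (deriv (deriv X) (pt ξ η)) (Real.sin η) (Real.cos η))
  have h2 : ‖e0 (Real.sin η) (Real.cos η)‖ = 1 := Pool.Agent.Helper70.EK.norm_e0 η
  have h3 := norm_sub_le (G (mX (X (pt ξ η)) (deriv X (pt ξ η)) (Real.sin η) (Real.cos η))
    (tX (X (pt ξ η)) (deriv X (pt ξ η)) (deriv (deriv X) (pt ξ η)) (Real.sin η) (Real.cos η)))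
    (e0 (Real.sin η) (Real.cos η))
  rw [h2] at h3
  have h4 := norm_nonneg (G (mX (X (pt ξ η)) (deriv X (pt ξ η)) (Real.sin η) (Real.cos η))
    (tX (X (pt ξ η)) (deriv X (pt ξ η)) (deriv (deriv X) (pt ξ η)) (Real.sin η) (Real.cos η)) -
    e0 (Real.sin η) (Real.cos η))
  nlinarith

/-- **the bound for one target from a certificate with the critical multiplier**, fields built
from 2-jets -/
theorem K_oneW_d {k₂ lam dc κ L B q : ℝ} (hB : 0 ≤ B) (hlam : 0 ≤ lam) (hk₂ : lam ≤ k₂)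
    (hdc : 0 ≤ dc) (hκ : k₂ < 2 * κ) {G : ℂ → ℂ → ℂ} (hG : GLip2 G L)
    (hGc : ∀ m t, G (conj m) (conj t) = conj (G m t))
    {M : ℂ → ℂ} (hM : Continuous M) (hMc : ∀ m, M (conj m) = conj (M m))
    {Nl : (ℂ → ℂ) → ℝ → ℝ → ℝ} {Kl : (ℂ → ℂ) → ℝ → ℝ} (hN : IsNullW DiscK Nl Kl)
    (hp : ∀ (X : ℂ → ℂ) (x₁ x₂ : ℝ), NiceH X x₁ x₂ → ∀ ξ ∈ Icc x₁ x₂,
      ∀ η ∈ Icc (0:ℝ) (π / 2), ‖tX (X (pt ξ η)) (deriv X (pt ξ η)) (deriv (deriv X) (pt ξ η))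
        (Real.sin η) (Real.cos η)‖ ≤ 6 → Real.sin η * ‖X (pt ξ η)‖ ≤ 9 →
      Real.sin η * ‖deriv X (pt ξ η) / X (pt ξ η)‖ ≤ 38 → ∃ l₀ l₁ l₂ : ℝ,
      0 ≤ l₀ ∧ l₀ ≤ B ∧ 0 ≤ l₁ ∧ l₁ ≤ B ∧ 0 ≤ l₂ ∧ l₂ ≤ B ∧
      T2 G X ξ η + l₀ * (1 - (Real.sin η * ‖X (pt ξ η)‖) ^ 2) +
        l₁ * (16 - ‖dA 1 (X (pt ξ η)) (deriv X (pt ξ η)) (Real.sin η) (Real.cos η)‖ ^ 2) +
        l₂ * (16 - ‖dA (-1) (X (pt ξ η)) (deriv X (pt ξ η)) (Real.sin η) (Real.cos η)‖ ^ 2) ≤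
      k₂ * (1 - (X (pt ξ η)).re) + lam * (‖X (pt ξ η)‖ ^ 2 - (X (pt ξ η)).re) + dc +
        Nl X ξ η + Mt M q X ξ η)
    {Q : (ℂ → ℂ) → ℝ → ℝ → Prop}
    (hQf : ∀ (β : ℂ → ℂ) (R a : ℝ), ExtR β R → 0 < a → a < 1 → Real.log (tau a) + 1 ≤ -1 →
      Q (Xf β a) (Real.log (tau a) + 1) (-1))
    (hCen : ∃ C' : ℝ, ∀ (x₁ x₂ V : ℝ) (χ χ₁ : ℝ → ℝ) (X : ℂ → ℂ),
      Cut1 x₁ x₂ V χ χ₁ → x₁ ≤ x₂ → 0 ≤ V → NiceX X x₁ x₂ → Q X x₁ x₂ →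
      ∫ ξ in x₁..x₂, χ ξ * (Kl X ξ + Kl (mir X) ξ) ≤ C' * (1 + V * (x₂ - x₁)))
    {D' : ℝ} (hQ : ∀ (X : ℂ → ℂ) (x₁ x₂ : ℝ), Q X x₁ x₂ → ∃ δ : ℝ → ℝ, Continuous δ ∧
      (∀ ξ ∈ Icc x₁ x₂, 0 ≤ δ ξ) ∧ (∀ ξ ∈ Icc x₁ x₂, (X (pt ξ (π / 2))).re ≤ 1 + δ ξ) ∧
      ∫ ξ in x₁..x₂, δ ξ ≤ D') :
    ∃ e C V₀ a₀ : ℝ, 0 < e ∧ 0 ≤ C ∧ 0 < V₀ ∧ a₀ < 1 ∧
      ∀ (β : ℂ → ℂ) (R a V : ℝ) (Ω Ω₁ Ω₂ : ℝ → ℝ → ℝ), ExtR β R → a₀ < a → a < 1 →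
      0 ≤ V → V ≤ V₀ → WtF (Real.log (tau a) + 1) (-1) V Ω Ω₁ Ω₂ →
      Kf (wf2 G β) 1 (-1) (Real.log a) +
          e * II (Real.log (tau a) + 1) (-1) (fun ξ η => ‖Xf β a (pt ξ η) - 1‖ ^ 2) ≤
        κ * Real.log (‖N β a‖ / (1 - a ^ 2)) +
          π⁻¹ * II (Real.log (tau a) + 1) (-1) (fun ξ η => Ω ξ η * Mt M q (Xf β a) ξ η) +
          4 * π⁻¹ * II (Real.log (tau a) + 1) (-1) (fun ξ η => 1 - Ω ξ η) +
          dc * (-1 - (Real.log (tau a) + 1)) +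
          C * (1 + V * (-1 - (Real.log (tau a) + 1))) := by
  have hS := stripW_b (P := DiscK) (T := T2 G) (Mt := Mt M q) (D := 330 * B * 8) (dc := dc)
    hlam hk₂ hdc (fun X x₁ x₂ hX => F3_contOn hG hX) (T2_cont_H hG) (T2_mirror hGc)
    (Mt_cont_X hM q) (Mt_cont_H hM q) (Mt_mirror hMc q) hN ?_ hCen hQ
  · exact K_oneW (w := wf2 G) (E3F hG 1 le_rfl) (T2_le4 hG)
      (fun X x₁ x₂ hX => F3_contOn hG hX)
      (fun β R a h ha ha1 hx => ⟨(discK_Xf β R a h ha ha1 hx).1,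
      (discK_Xf β R a h ha ha1 hx).2, hQf β R a h ha ha1 hx⟩)
      (fun δ hδ => Pool.Agent.Helper79.EK3.centre_line hδ) hS hlam hk₂ hκ
  intro X x₁ x₂ hx hX hP
  have q9 := DiscP.X_le X x₁ x₂ hx hX hP.1
  have q38 := DiscP.q_le X x₁ x₂ hx hX hP.1
  obtain ⟨⟨δ, h1, h2, h3, h4, h5⟩, h6⟩ := hP
  refine ⟨fun ξ => 330 * B * δ ξ, by fun_prop, fun ξ => by have := h2 ξ; positivity, ?_, ?_⟩
  · rw [intervalIntegral.integral_const_mul]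
    exact mul_le_mul_of_nonneg_left h4 (by positivity)
  · intro ξ hξ η hη
    have hs : 0 ≤ Real.sin η := Real.sin_nonneg_of_nonneg_of_le_pi hη.1
      (hη.2.trans (by linarith [Real.pi_pos]))
    obtain ⟨l₀, l₁, l₂, a1, a2, b1, b2, c1, c2, hl⟩ := hp X x₁ x₂ hX ξ hξ η hη (h6 ξ hξ η hη)
      (q9 ξ hξ η hη) (q38 ξ hξ η hη)
    obtain ⟨k1, k2, k3⟩ := h5 ξ hξ η hη
    have hd0 := h2 ξ
    have hd8 := h3 ξ hξ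
    set d := δ ξ with hd
    have s1 : (Real.sin η * ‖X (pt ξ η)‖) ^ 2 ≤ 1 + 10 * d := by
      have := pow_le_pow_left₀ (mul_nonneg hs (norm_nonneg _)) k1 2
      nlinarith
    have s2 : ‖dA 1 (X (pt ξ η)) (deriv X (pt ξ η)) (Real.sin η) (Real.cos η)‖ ^ 2 ≤
        16 + 160 * d := by
      have := pow_le_pow_left₀ (norm_nonneg _) k2 2
      nlinarith
    have s3 : ‖dA (-1) (X (pt ξ η)) (deriv X (pt ξ η)) (Real.sin η) (Real.cos η)‖ ^ 2 ≤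
        16 + 160 * d := by
      have := pow_le_pow_left₀ (norm_nonneg _) k3 2
      nlinarith
    have m1 : l₀ * ((Real.sin η * ‖X (pt ξ η)‖) ^ 2 - 1) ≤ B * (10 * d) :=
      (mul_le_mul_of_nonneg_left (by linarith : _ ≤ 10 * d) a1).trans
        (mul_le_mul_of_nonneg_right a2 (by positivity))
    have m2 : l₁ * (‖dA 1 (X (pt ξ η)) (deriv X (pt ξ η)) (Real.sin η) (Real.cos η)‖ ^ 2 - 16) ≤
        B * (160 * d) :=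
      (mul_le_mul_of_nonneg_left (by linarith : _ ≤ 160 * d) b1).trans
        (mul_le_mul_of_nonneg_right b2 (by positivity))
    have m3 : l₂ * (‖dA (-1) (X (pt ξ η)) (deriv X (pt ξ η)) (Real.sin η) (Real.cos η)‖ ^ 2 -
        16) ≤ B * (160 * d) :=
      (mul_le_mul_of_nonneg_left (by linarith : _ ≤ 160 * d) c1).trans
        (mul_le_mul_of_nonneg_right c2 (by positivity))
    linarith

theorem GLip.two {G : ℂ → ℂ} {L : ℝ} (hG : GLip G L) : GLip2 (fun m _ => G m) L := by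
  refine ⟨fun m _ => hG.le_one m, fun m m' _ => hG.lip m m', fun u m _ hu => hG.rot u m hu, ?_⟩
  have h1 : Continuous G := by
    have h2 : LipschitzWith (Real.toNNReal |L|) G := by
      refine LipschitzWith.of_dist_le_mul fun m m' => ?_
      rw [dist_eq_norm, dist_eq_norm, Real.coe_toNNReal _ (abs_nonneg L)]
      exact (hG.lip m m').trans (mul_le_mul_of_nonneg_right (le_abs_self L) (norm_nonneg _))
    exact h2.continuous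
  exact h1.comp continuous_fst

/-- **the same for fields built from the gradient** -/
theorem K_oneW_1 {k₂ lam dc κ L B q : ℝ} (hB : 0 ≤ B) (hlam : 0 ≤ lam) (hk₂ : lam ≤ k₂)
    (hdc : 0 ≤ dc) (hκ : k₂ < 2 * κ) {G : ℂ → ℂ} (hG : GLip G L)
    (hGc : ∀ m, G (conj m) = conj (G m))
    {M : ℂ → ℂ} (hM : Continuous M) (hMc : ∀ m, M (conj m) = conj (M m))
    {Nl : (ℂ → ℂ) → ℝ → ℝ → ℝ} {Kl : (ℂ → ℂ) → ℝ → ℝ} (hN : IsNullW DiscP Nl Kl)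
    (hp : ∀ (X : ℂ → ℂ) (x₁ x₂ : ℝ), NiceH X x₁ x₂ → ∀ ξ ∈ Icc x₁ x₂,
      ∀ η ∈ Icc (0:ℝ) (π / 2), Real.sin η * ‖X (pt ξ η)‖ ≤ 9 →
      Real.sin η * ‖deriv X (pt ξ η) / X (pt ξ η)‖ ≤ 38 → ∃ l₀ l₁ l₂ : ℝ,
      0 ≤ l₀ ∧ l₀ ≤ B ∧ 0 ≤ l₁ ∧ l₁ ≤ B ∧ 0 ≤ l₂ ∧ l₂ ≤ B ∧
      TG G (X (pt ξ η)) (deriv X (pt ξ η)) (Real.sin η) (Real.cos η) +
        l₀ * (1 - (Real.sin η * ‖X (pt ξ η)‖) ^ 2) +
        l₁ * (16 - ‖dA 1 (X (pt ξ η)) (deriv X (pt ξ η)) (Real.sin η) (Real.cos η)‖ ^ 2) +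
        l₂ * (16 - ‖dA (-1) (X (pt ξ η)) (deriv X (pt ξ η)) (Real.sin η) (Real.cos η)‖ ^ 2) ≤
      k₂ * (1 - (X (pt ξ η)).re) + lam * (‖X (pt ξ η)‖ ^ 2 - (X (pt ξ η)).re) + dc +
        Nl X ξ η + Mt M q X ξ η)
    {Q : (ℂ → ℂ) → ℝ → ℝ → Prop}
    (hQf : ∀ (β : ℂ → ℂ) (R a : ℝ), ExtR β R → 0 < a → a < 1 → Real.log (tau a) + 1 ≤ -1 →
      Q (Xf β a) (Real.log (tau a) + 1) (-1))
    (hCen : ∃ C' : ℝ, ∀ (x₁ x₂ V : ℝ) (χ χ₁ : ℝ → ℝ) (X : ℂ → ℂ),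
      Cut1 x₁ x₂ V χ χ₁ → x₁ ≤ x₂ → 0 ≤ V → NiceX X x₁ x₂ → Q X x₁ x₂ →
      ∫ ξ in x₁..x₂, χ ξ * (Kl X ξ + Kl (mir X) ξ) ≤ C' * (1 + V * (x₂ - x₁)))
    {D' : ℝ} (hQ : ∀ (X : ℂ → ℂ) (x₁ x₂ : ℝ), Q X x₁ x₂ → ∃ δ : ℝ → ℝ, Continuous δ ∧
      (∀ ξ ∈ Icc x₁ x₂, 0 ≤ δ ξ) ∧ (∀ ξ ∈ Icc x₁ x₂, (X (pt ξ (π / 2))).re ≤ 1 + δ ξ) ∧
      ∫ ξ in x₁..x₂, δ ξ ≤ D') :
    ∃ e C V₀ a₀ : ℝ, 0 < e ∧ 0 ≤ C ∧ 0 < V₀ ∧ a₀ < 1 ∧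
      ∀ (β : ℂ → ℂ) (R a V : ℝ) (Ω Ω₁ Ω₂ : ℝ → ℝ → ℝ), ExtR β R → a₀ < a → a < 1 →
      0 ≤ V → V ≤ V₀ → WtF (Real.log (tau a) + 1) (-1) V Ω Ω₁ Ω₂ →
      Kf (wf G β) 1 (-1) (Real.log a) +
          e * II (Real.log (tau a) + 1) (-1) (fun ξ η => ‖Xf β a (pt ξ η) - 1‖ ^ 2) ≤
        κ * Real.log (‖N β a‖ / (1 - a ^ 2)) +
          π⁻¹ * II (Real.log (tau a) + 1) (-1) (fun ξ η => Ω ξ η * Mt M q (Xf β a) ξ η) +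
          4 * π⁻¹ * II (Real.log (tau a) + 1) (-1) (fun ξ η => 1 - Ω ξ η) +
          dc * (-1 - (Real.log (tau a) + 1)) +
          C * (1 + V * (-1 - (Real.log (tau a) + 1))) :=
  K_oneW_d (G := fun m _ => G m) hB hlam hk₂ hdc hκ (GLip.two hG) (fun m _ => hGc m) hM hMc
    (hN.mono fun _ _ _ h => h.1) (fun X x₁ x₂ hX ξ hξ η hη _ => hp X x₁ x₂ hX ξ hξ η hη)
    hQf hCen hQ

end Pool.Agent.Helper84.CK
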