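import Pool.Agent.Helper84.CK.KOneWd
import Pool.Agent.Helper69.CK.GrowE
set_option autoImplicit false
open Complex MeasureTheory Metric Set
open scoped Real ComplexConjugate

/-!
# Project CK: the bound for one target, multipliers of the discs with quadratic growth
-/

namespace Pool.Agent.Helper84.CK

open Pool.Agent.Helper39.Area Pool.Agent.Helper52.EK Pool.Agent.Helper69.EK3
open Pool.Agent.Helper69.EK7 Pool.Agent.Helper69.CK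

/-- the energy around `1` -/
theorem energy_one (X : ℂ) : ‖X - 1‖ ^ 2 = (1 - X.re) + (‖X‖ ^ 2 - X.re) := by
  rw [← Complex.normSq_eq_norm_sq, ← Complex.normSq_eq_norm_sq, Complex.normSq_apply,
    Complex.normSq_apply]
  simp only [Complex.sub_re, Complex.one_re, Complex.sub_im, Complex.one_im]
  ring

/-- the class of `DiscG`, with the bound of Kraus -/
def DiscGK (X : ℂ → ℂ) (x₁ x₂ : ℝ) : Prop :=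
  DiscG (π / 2) X x₁ x₂ ∧ ∀ ξ ∈ Icc x₁ x₂, ∀ η ∈ Icc (0:ℝ) (π / 2),
    ‖tX (X (pt ξ η)) (deriv X (pt ξ η)) (deriv (deriv X) (pt ξ η)) (Real.sin η)
      (Real.cos η)‖ ≤ 6

theorem DiscGK.toK {X : ℂ → ℂ} {x₁ x₂ : ℝ} (h : DiscGK X x₁ x₂) : DiscK X x₁ x₂ :=
  ⟨h.1.toP, h.2⟩

theorem discGK_Xf (β : ℂ → ℂ) (R a : ℝ) (h : ExtR β R) (ha : 0 < a) (ha1 : a < 1)
    (hx : Real.log (tau a) + 1 ≤ -1) : DiscGK (Xf β a) (Real.log (tau a) + 1) (-1) ∧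
      DiscGK (mir (Xf β a)) (Real.log (tau a) + 1) (-1) := by
  obtain ⟨h1, h2⟩ := discG_Xf_half β R a h ha ha1 hx
  obtain ⟨h3, h4⟩ := discK_Xf β R a h ha ha1 hx
  exact ⟨⟨h1, h3.2⟩, ⟨h2, h4.2⟩⟩

/-- **the bound for one target from a certificate with the critical multiplier**, fields built
from 2-jets, multipliers of the discs with quadratic growth -/
theorem K_oneW_gd {k₂ lam dc κ L B q : ℝ} (hB : 0 ≤ B) (hlam : 0 ≤ lam) (hk₂ : lam ≤ k₂)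
    (hdc : 0 ≤ dc) (hκ : k₂ < 2 * κ) {G : ℂ → ℂ → ℂ} (hG : GLip2 G L)
    (hGc : ∀ m t, G (conj m) (conj t) = conj (G m t))
    {M : ℂ → ℂ} (hM : Continuous M) (hMc : ∀ m, M (conj m) = conj (M m))
    {Nl : (ℂ → ℂ) → ℝ → ℝ → ℝ} {Kl : (ℂ → ℂ) → ℝ → ℝ} (hN : IsNullW DiscK Nl Kl)
    (hp : ∀ (X : ℂ → ℂ) (x₁ x₂ : ℝ), NiceH X x₁ x₂ → ∀ ξ ∈ Icc x₁ x₂,
      ∀ η ∈ Icc (0:ℝ) (π / 2), ‖tX (X (pt ξ η)) (deriv X (pt ξ η)) (deriv (deriv X) (pt ξ η))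
        (Real.sin η) (Real.cos η)‖ ≤ 6 → Real.sin η * ‖X (pt ξ η)‖ ≤ 9 →
      Real.sin η * ‖deriv X (pt ξ η) / X (pt ξ η)‖ ≤ 38 → ∃ l₀ l₁ l₂ : ℝ,
      0 ≤ l₀ ∧ l₀ ≤ B * (1 + ‖X (pt ξ η) - 1‖ ^ 2) ∧
      0 ≤ l₁ ∧ l₁ ≤ B * (1 + ‖X (pt ξ η) - 1‖ ^ 2) ∧
      0 ≤ l₂ ∧ l₂ ≤ B * (1 + ‖X (pt ξ η) - 1‖ ^ 2) ∧
      T2 G X ξ η + l₀ * (1 - (Real.sin η * ‖X (pt ξ η)‖) ^ 2) +
        l₁ * (16 - ‖dA 1 (X (pt ξ η)) (deriv X (pt ξ η)) (Real.sin η) (Real.cos η)‖ ^ 2) +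
        l₂ * (16 - ‖dA (-1) (X (pt ξ η)) (deriv X (pt ξ η)) (Real.sin η) (Real.cos η)‖ ^ 2) ≤
      k₂ * (1 - (X (pt ξ η)).re) + lam * (‖X (pt ξ η)‖ ^ 2 - (X (pt ξ η)).re) + dc +
        Nl X ξ η + Mt M q X ξ η)
    {Q : (ℂ → ℂ) → ℝ → ℝ → Prop}
    (hQf : ∀ (β : ℂ → ℂ) (R a : ℝ), ExtR β R → 0 < a → a < 1 → Real.log (tau a) + 1 ≤ -1 →
      Q (Xf β a) (Real.log (tau a) + 1) (-1))
    (hCen : ∃ C' : ℝ, ∀ (x₁ x₂ V : ℝ) (χ χ₁ : ℝ → ℝ) (X : ℂ → ℂ),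
      Cut1 x₁ x₂ V χ χ₁ → x₁ ≤ x₂ → 0 ≤ V → NiceX X x₁ x₂ → Q X x₁ x₂ →
      ∫ ξ in x₁..x₂, χ ξ * (Kl X ξ + Kl (mir X) ξ) ≤ C' * (1 + V * (x₂ - x₁)))
    {D' : ℝ} (hQ : ∀ (X : ℂ → ℂ) (x₁ x₂ : ℝ), Q X x₁ x₂ → ∃ δ : ℝ → ℝ, Continuous δ ∧
      (∀ ξ ∈ Icc x₁ x₂, 0 ≤ δ ξ) ∧ (∀ ξ ∈ Icc x₁ x₂, (X (pt ξ (π / 2))).re ≤ 1 + δ ξ) ∧
      ∫ ξ in x₁..x₂, δ ξ ≤ D') :
    ∃ e C V₀ a₀ : ℝ, 0 < e ∧ 0 ≤ C ∧ 0 < V₀ ∧ a₀ < 1 ∧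
      ∀ (β : ℂ → ℂ) (R a V : ℝ) (Ω Ω₁ Ω₂ : ℝ → ℝ → ℝ), ExtR β R → a₀ < a → a < 1 →
      0 ≤ V → V ≤ V₀ → WtF (Real.log (tau a) + 1) (-1) V Ω Ω₁ Ω₂ →
      Kf (wf2 G β) 1 (-1) (Real.log a) +
          e * II (Real.log (tau a) + 1) (-1) (fun ξ η => ‖Xf β a (pt ξ η) - 1‖ ^ 2) ≤
        κ * Real.log (‖N β a‖ / (1 - a ^ 2)) +
          π⁻¹ * II (Real.log (tau a) + 1) (-1) (fun ξ η => Ω ξ η * Mt M q (Xf β a) ξ η) +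
          4 * π⁻¹ * II (Real.log (tau a) + 1) (-1) (fun ξ η => 1 - Ω ξ η) +
          dc * (-1 - (Real.log (tau a) + 1)) +
          C * (1 + V * (-1 - (Real.log (tau a) + 1))) := by
  have hpi := Real.pi_pos
  obtain ⟨ε, hε⟩ : ∃ ε, ε = (2 * κ - k₂) / 2 := ⟨_, rfl⟩
  have hε0 : 0 < ε := by rw [hε]; linarith
  obtain ⟨Kg, hKg0, hKg⟩ := grow_err hB hε0
  have hS := stripW_b (P := DiscGK) (T := T2 G) (Mt := Mt M q) (D := Kg * 8) (dc := dc)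
    (lam := lam + ε) (k₂ := k₂ + ε)
    (by linarith) (by linarith) hdc (fun X x₁ x₂ hX => F3_contOn hG hX) (T2_cont_H hG)
    (T2_mirror hGc)
    (Mt_cont_X hM q) (Mt_cont_H hM q) (Mt_mirror hMc q)
    (hN.mono fun _ _ _ h => DiscGK.toK h) ?_ hCen hQ
  · exact K_oneW (w := wf2 G) (E3F hG 1 le_rfl) (T2_le4 hG)
      (fun X x₁ x₂ hX => F3_contOn hG hX)
      (fun β R a h ha ha1 hx => ⟨(discGK_Xf β R a h ha ha1 hx).1,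
      (discGK_Xf β R a h ha ha1 hx).2, hQf β R a h ha ha1 hx⟩)
      (fun δ hδ => Pool.Agent.Helper79.EK3.centre_line hδ) hS (by linarith) (by linarith)
      (by rw [hε]; linarith)
  intro X x₁ x₂ hx hX hP
  have q9 := DiscG.X_le (by linarith) hP.1
  have q38 := DiscG.q_le (by linarith) hP.1
  obtain ⟨⟨δ, h1, h2, h3, h4, h5⟩, h6⟩ := hP
  refine ⟨fun ξ => Kg * δ ξ, by fun_prop, fun ξ => mul_nonneg hKg0 (h2 ξ), ?_, ?_⟩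
  · rw [intervalIntegral.integral_const_mul]
    exact mul_le_mul_of_nonneg_left h4 hKg0
  · intro ξ hξ η hη
    have hs : 0 ≤ Real.sin η := Real.sin_nonneg_of_nonneg_of_le_pi hη.1
      (hη.2.trans (by linarith))
    obtain ⟨l₀, l₁, l₂, a1, a2, b1, b2, c1, c2, hl⟩ := hp X x₁ x₂ hX ξ hξ η hη (h6 ξ hξ η hη)
      (q9 ξ hξ η hη) (q38 ξ hξ η hη)
    obtain ⟨k1, k2, k3⟩ := h5 ξ hξ η hη
    have hg := hKg (X (pt ξ η)) (Real.sin η) (δ ξ) _ _ l₀ l₁ l₂ hs (Real.sin_le_one η) (h2 ξ)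
      (h3 ξ hξ) k1 (norm_nonneg _) k2 (norm_nonneg _) k3 a1 a2 b1 b2 c1 c2
    rw [energy_one] at hg
    show T2 G X ξ η ≤ (k₂ + ε) * (1 - (X (pt ξ η)).re) +
      (lam + ε) * (‖X (pt ξ η)‖ ^ 2 - (X (pt ξ η)).re) + dc + Nl X ξ η + Mt M q X ξ η +
      Kg * δ ξ
    linarith

/-- **the same for fields built from the gradient** -/
theorem K_oneW_g {k₂ lam dc κ L B q : ℝ} (hB : 0 ≤ B) (hlam : 0 ≤ lam) (hk₂ : lam ≤ k₂)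
    (hdc : 0 ≤ dc) (hκ : k₂ < 2 * κ) {G : ℂ → ℂ} (hG : GLip G L)
    (hGc : ∀ m, G (conj m) = conj (G m))
    {M : ℂ → ℂ} (hM : Continuous M) (hMc : ∀ m, M (conj m) = conj (M m))
    {Nl : (ℂ → ℂ) → ℝ → ℝ → ℝ} {Kl : (ℂ → ℂ) → ℝ → ℝ} (hN : IsNullW DiscP Nl Kl)
    (hp : ∀ (X : ℂ → ℂ) (x₁ x₂ : ℝ), NiceH X x₁ x₂ → ∀ ξ ∈ Icc x₁ x₂,
      ∀ η ∈ Icc (0:ℝ) (π / 2), Real.sin η * ‖X (pt ξ η)‖ ≤ 9 →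
      Real.sin η * ‖deriv X (pt ξ η) / X (pt ξ η)‖ ≤ 38 → ∃ l₀ l₁ l₂ : ℝ,
      0 ≤ l₀ ∧ l₀ ≤ B * (1 + ‖X (pt ξ η) - 1‖ ^ 2) ∧
      0 ≤ l₁ ∧ l₁ ≤ B * (1 + ‖X (pt ξ η) - 1‖ ^ 2) ∧
      0 ≤ l₂ ∧ l₂ ≤ B * (1 + ‖X (pt ξ η) - 1‖ ^ 2) ∧
      TG G (X (pt ξ η)) (deriv X (pt ξ η)) (Real.sin η) (Real.cos η) +
        l₀ * (1 - (Real.sin η * ‖X (pt ξ η)‖) ^ 2) +
        l₁ * (16 - ‖dA 1 (X (pt ξ η)) (deriv X (pt ξ η)) (Real.sin η) (Real.cos η)‖ ^ 2) +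
        l₂ * (16 - ‖dA (-1) (X (pt ξ η)) (deriv X (pt ξ η)) (Real.sin η) (Real.cos η)‖ ^ 2) ≤
      k₂ * (1 - (X (pt ξ η)).re) + lam * (‖X (pt ξ η)‖ ^ 2 - (X (pt ξ η)).re) + dc +
        Nl X ξ η + Mt M q X ξ η)
    {Q : (ℂ → ℂ) → ℝ → ℝ → Prop}
    (hQf : ∀ (β : ℂ → ℂ) (R a : ℝ), ExtR β R → 0 < a → a < 1 → Real.log (tau a) + 1 ≤ -1 →
      Q (Xf β a) (Real.log (tau a) + 1) (-1))
    (hCen : ∃ C' : ℝ, ∀ (x₁ x₂ V : ℝ) (χ χ₁ : ℝ → ℝ) (X : ℂ → ℂ),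
      Cut1 x₁ x₂ V χ χ₁ → x₁ ≤ x₂ → 0 ≤ V → NiceX X x₁ x₂ → Q X x₁ x₂ →
      ∫ ξ in x₁..x₂, χ ξ * (Kl X ξ + Kl (mir X) ξ) ≤ C' * (1 + V * (x₂ - x₁)))
    {D' : ℝ} (hQ : ∀ (X : ℂ → ℂ) (x₁ x₂ : ℝ), Q X x₁ x₂ → ∃ δ : ℝ → ℝ, Continuous δ ∧
      (∀ ξ ∈ Icc x₁ x₂, 0 ≤ δ ξ) ∧ (∀ ξ ∈ Icc x₁ x₂, (X (pt ξ (π / 2))).re ≤ 1 + δ ξ) ∧
      ∫ ξ in x₁..x₂, δ ξ ≤ D') :
    ∃ e C V₀ a₀ : ℝ, 0 < e ∧ 0 ≤ C ∧ 0 < V₀ ∧ a₀ < 1 ∧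
      ∀ (β : ℂ → ℂ) (R a V : ℝ) (Ω Ω₁ Ω₂ : ℝ → ℝ → ℝ), ExtR β R → a₀ < a → a < 1 →
      0 ≤ V → V ≤ V₀ → WtF (Real.log (tau a) + 1) (-1) V Ω Ω₁ Ω₂ →
      Kf (wf G β) 1 (-1) (Real.log a) +
          e * II (Real.log (tau a) + 1) (-1) (fun ξ η => ‖Xf β a (pt ξ η) - 1‖ ^ 2) ≤
        κ * Real.log (‖N β a‖ / (1 - a ^ 2)) +
          π⁻¹ * II (Real.log (tau a) + 1) (-1) (fun ξ η => Ω ξ η * Mt M q (Xf β a) ξ η) +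
          4 * π⁻¹ * II (Real.log (tau a) + 1) (-1) (fun ξ η => 1 - Ω ξ η) +
          dc * (-1 - (Real.log (tau a) + 1)) +
          C * (1 + V * (-1 - (Real.log (tau a) + 1))) :=
  K_oneW_gd (G := fun m _ => G m) hB hlam hk₂ hdc hκ (GLip.two hG) (fun m _ => hGc m) hM hMc
    (hN.mono fun _ _ _ h => h.1) (fun X x₁ x₂ hX ξ hξ η hη _ => hp X x₁ x₂ hX ξ hξ η hη)
    hQf hCen hQ

end Pool.Agent.Helper84.CK
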