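import Pool.Agent.Helper84.CK.PotW
set_option autoImplicit false
open Complex MeasureTheory Metric Set
open scoped Real ComplexConjugate

/-!
# Project CK: weights on the whole strip
-/

namespace Pool.Agent.Helper84.CK

open Pool.Agent.Helper52.EK Pool.Agent.Helper69.EK3 Pool.Agent.Helper69.EK7

/-- a weight on the strip with its partial derivatives; `K` bounds its variation -/
structure WtF (x₁ x₂ K : ℝ) (Ω Ω₁ Ω₂ : ℝ → ℝ → ℝ) : Prop where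
  c0 : CH x₁ x₂ π Ω
  c1 : CH x₁ x₂ π Ω₁
  c2 : CH x₁ x₂ π Ω₂
  d1 : ∀ ξ ∈ Icc x₁ x₂, ∀ η ∈ Icc (0:ℝ) π, HasDerivAt (fun t => Ω t η) (Ω₁ ξ η) ξ
  d2 : ∀ ξ ∈ Icc x₁ x₂, ∀ η ∈ Icc (0:ℝ) π, HasDerivAt (fun t => Ω ξ t) (Ω₂ ξ η) η
  e1 : ∀ η ∈ Icc (0:ℝ) π, Ω x₁ η = 0
  e2 : ∀ η ∈ Icc (0:ℝ) π, Ω x₂ η = 0
  b01 : ∀ ξ ∈ Icc x₁ x₂, ∀ η ∈ Icc (0:ℝ) π, 0 ≤ Ω ξ η ∧ Ω ξ η ≤ 1
  g1 : ∀ ξ ∈ Icc x₁ x₂, ∀ η ∈ Icc (0:ℝ) π, |Ω₁ ξ η| * Real.sin η ≤ K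
  g2 : ∀ ξ ∈ Icc x₁ x₂, ∀ η ∈ Icc (0:ℝ) π, |Ω₂ ξ η| * Real.sin η ≤ K

theorem half_sub {η : ℝ} (hη : η ∈ Icc (0:ℝ) (π / 2)) : η ∈ Icc (0:ℝ) π :=
  ⟨hη.1, hη.2.trans (by linarith [Real.pi_pos])⟩

theorem half_mir {η : ℝ} (hη : η ∈ Icc (0:ℝ) (π / 2)) : π - η ∈ Icc (0:ℝ) π :=
  ⟨by linarith [hη.2, Real.pi_pos], by linarith [hη.1]⟩

/-- the lower half -/
theorem WtF.half {x₁ x₂ K : ℝ} {Ω Ω₁ Ω₂ : ℝ → ℝ → ℝ} (h : WtF x₁ x₂ K Ω Ω₁ Ω₂) :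
    Wt x₁ x₂ Ω Ω₁ Ω₂ (fun _ _ => K) := by
  have hs : Icc x₁ x₂ ×ˢ Icc (0:ℝ) (π / 2) ⊆ Icc x₁ x₂ ×ˢ Icc 0 π :=
    prod_mono subset_rfl fun _ hη => half_sub hη
  exact ⟨h.c0.mono hs, h.c1.mono hs, h.c2.mono hs, continuousOn_const,
    fun ξ hξ η hη => h.d1 ξ hξ η (half_sub hη), fun ξ hξ η hη => h.d2 ξ hξ η (half_sub hη),
    fun η hη => h.e1 η (half_sub hη), fun η hη => h.e2 η (half_sub hη),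
    fun ξ hξ η hη => h.b01 ξ hξ η (half_sub hη), fun ξ hξ η hη => h.g1 ξ hξ η (half_sub hη),
    fun ξ hξ η hη => h.g2 ξ hξ η (half_sub hη)⟩

/-- the upper half, reflected -/
theorem WtF.mir {x₁ x₂ K : ℝ} {Ω Ω₁ Ω₂ : ℝ → ℝ → ℝ} (h : WtF x₁ x₂ K Ω Ω₁ Ω₂) :
    Wt x₁ x₂ (fun ξ η => Ω ξ (π - η)) (fun ξ η => Ω₁ ξ (π - η)) (fun ξ η => -Ω₂ ξ (π - η))
      (fun _ _ => K) := by
  have hc : ∀ {F : ℝ → ℝ → ℝ}, CH x₁ x₂ π F →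
      CH x₁ x₂ (π / 2) (fun ξ η => F ξ (π - η)) := fun hF =>
    ContinuousOn.comp (f := fun p : ℝ × ℝ => (p.1, π - p.2)) hF (by fun_prop)
      fun p hp => ⟨hp.1, half_mir hp.2⟩
  refine ⟨hc h.c0, hc h.c1, (hc h.c2).neg, continuousOn_const,
    fun ξ hξ η hη => h.d1 ξ hξ _ (half_mir hη), fun ξ hξ η hη => ?_,
    fun η hη => h.e1 _ (half_mir hη), fun η hη => h.e2 _ (half_mir hη),
    fun ξ hξ η hη => h.b01 ξ hξ _ (half_mir hη), fun ξ hξ η hη => ?_,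
    fun ξ hξ η hη => ?_⟩
  · have h1 := (h.d2 ξ hξ _ (half_mir hη)).comp_const_sub π η
    exact h1
  · have := h.g1 ξ hξ _ (half_mir hη)
    rwa [Real.sin_pi_sub] at this
  · have := h.g2 ξ hξ _ (half_mir hη)
    rw [Real.sin_pi_sub] at this
    simpa only [abs_neg] using this

end Pool.Agent.Helper84.CK
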