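import Pool.Agent.Helper84.CK.KOneWd
set_option autoImplicit false
open Complex MeasureTheory Metric Set
open scoped Real ComplexConjugate

/-!
# Project CK: the centre line, from a pointwise inequality
-/

namespace Pool.Agent.Helper84.CK

open Pool.Agent.Helper39.Area Pool.Agent.Helper52.EK Pool.Agent.Helper69.EK3
open Pool.Agent.Helper69.EK7 Pool.Agent.Helper69.CK

/-- the condition of the centre line from a pointwise inequality with an integrable error -/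
theorem cenW_of {Kl : (ℂ → ℂ) → ℝ → ℝ}
    (cK : ∀ (X : ℂ → ℂ) (x₁ x₂ : ℝ), NiceH X x₁ x₂ → ContinuousOn (Kl X) (Icc x₁ x₂))
    {Q : (ℂ → ℂ) → ℝ → ℝ → Prop} {D : ℝ}
    (h : ∀ (X : ℂ → ℂ) (x₁ x₂ : ℝ), x₁ ≤ x₂ → NiceX X x₁ x₂ → Q X x₁ x₂ → ∃ ρ : ℝ → ℝ,
      ContinuousOn ρ (Icc x₁ x₂) ∧ (∀ ξ ∈ Icc x₁ x₂, 0 ≤ ρ ξ) ∧ ∫ ξ in x₁..x₂, ρ ξ ≤ D ∧
      ∀ ξ ∈ Icc x₁ x₂, Kl X ξ + Kl (mir X) ξ ≤ ρ ξ) :
    ∃ C' : ℝ, ∀ (x₁ x₂ V : ℝ) (χ χ₁ : ℝ → ℝ) (X : ℂ → ℂ),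
      Cut1 x₁ x₂ V χ χ₁ → x₁ ≤ x₂ → 0 ≤ V → NiceX X x₁ x₂ → Q X x₁ x₂ →
      ∫ ξ in x₁..x₂, χ ξ * (Kl X ξ + Kl (mir X) ξ) ≤ C' * (1 + V * (x₂ - x₁)) := by
  refine ⟨|D|, fun x₁ x₂ V χ χ₁ X hχ hx hV hX hQ => ?_⟩
  obtain ⟨ρ, cρ, ρ0, hD, hle⟩ := h X x₁ x₂ hx hX hQ
  have c1 := cK X x₁ x₂ (NiceX.half hX)
  have c2 := cK (mir X) x₁ x₂ (NiceX.mir hX)
  have i1 : IntervalIntegrable (fun ξ => χ ξ * (Kl X ξ + Kl (mir X) ξ)) volume x₁ x₂ :=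
    (hχ.c0.mul (c1.add c2)).intervalIntegrable_of_Icc hx
  have i2 : IntervalIntegrable ρ volume x₁ x₂ := cρ.intervalIntegrable_of_Icc hx
  have h1 : ∫ ξ in x₁..x₂, χ ξ * (Kl X ξ + Kl (mir X) ξ) ≤ ∫ ξ in x₁..x₂, ρ ξ := by
    refine intervalIntegral.integral_mono_on hx i1 i2 fun ξ hξ => ?_
    obtain ⟨w0, w1⟩ := hχ.b01 ξ hξ
    exact (mul_le_mul_of_nonneg_left (hle ξ hξ) w0).trans
      (mul_le_of_le_one_left (ρ0 ξ hξ) w1)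
  have h2 : 0 ≤ V * (x₂ - x₁) := mul_nonneg hV (by linarith)
  have h3 := le_abs_self D
  nlinarith [mul_nonneg (abs_nonneg D) h2]

end Pool.Agent.Helper84.CK
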