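import Pool.Agent.Helper84.CK.PotW
import Pool.Agent.Helper69.EK3.XF
import Pool.Agent.Helper69.EK3.Fam
set_option autoImplicit false
open Complex MeasureTheory Metric Set
open scoped Real ComplexConjugate

/-!
# Project CK: the families of null Lagrangians against weights
-/

namespace Pool.Agent.Helper84.CK

open Pool.Agent.Helper52.EK Pool.Agent.Helper69.EK3 Pool.Agent.Helper69.EK7

variable {P : (ℂ → ℂ) → ℝ → ℝ → Prop}

/-- `V`-type, in the direction of `η` -/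
theorem isNullW_V {V Vx Vy : ℂ → ℝ} (hV : C1f V Vx Vy) {b b₁ : ℝ → ℝ}
    (g1 : ∀ η, HasDerivAt b (b₁ η) η) (g1c : Continuous b₁) (f1 : b 0 = 0) {C M : ℝ}
    (hM : 0 ≤ M) (hb : ∀ η ∈ Icc (0:ℝ) (π / 2), |b η| ≤ M * Real.sin η)
    (bV : ∀ X, |V X| ≤ C * (1 + ‖X - 1‖ ^ 2)) :
    IsNullW P (fun X ξ η => b η * dEta Vx Vy (X (pt ξ η)) (deriv X (pt ξ η)) +
      b₁ η * V (X (pt ξ η))) (fun X ξ => b (π / 2) * V (X (pt ξ (π / 2)))) := by
  have h := isNullW_G (P := P) (C1c_I hV) anF_one g1 g1c f1 (C := M * C) (by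
    intro X x₁ x₂ hx hX hP ξ hξ η hη
    have h1 := hb η hη
    have h2 := bV (X (pt ξ η))
    have hs := sin_nn hη
    rw [norm_mul, norm_I, one_mul, norm_real, Real.norm_eq_abs, norm_one, mul_one]
    calc |b η| * |V (X (pt ξ η))| ≤ (M * Real.sin η) * (C * (1 + ‖X (pt ξ η) - 1‖ ^ 2)) :=
          mul_le_mul h1 h2 (abs_nonneg _) (mul_nonneg hM hs)
      _ = M * C * Real.sin η * (1 + ‖X (pt ξ η) - 1‖ ^ 2) := by ring)
  refine (h.const_mul (-1)).congr ?_ ?_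
  · intro X ξ η
    unfold NG dEta
    simp only [mul_re, mul_im, add_re, add_im, conj_re, conj_im, ofReal_re, ofReal_im, I_re,
      I_im, one_re, one_im]
    ring
  · intro X ξ
    simp only [mul_im, ofReal_re, ofReal_im, I_re, I_im, one_re, one_im, mul_re]
    ring

/-- `W`-type, in the direction of `ξ` -/
theorem isNullW_W {W Wx Wy : ℂ → ℝ} (hW : C1f W Wx Wy) {b : ℝ → ℝ} (hbc : Continuous b) {C M : ℝ}
    (hM : 0 ≤ M) (hb : ∀ η ∈ Icc (0:ℝ) (π / 2), |b η| ≤ M * Real.sin η)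
    (bW : ∀ X, |W X| ≤ C * (1 + ‖X - 1‖ ^ 2)) :
    IsNullW P (fun X ξ η => b η * (Wx (X (pt ξ η)) * (deriv X (pt ξ η)).re +
      Wy (X (pt ξ η)) * (deriv X (pt ξ η)).im)) (fun _ _ => 0) := by
  have cW : Continuous W := Pool.Agent.Helper4.EK.C1f.continuous hW
  refine isNullW_xi (F := fun X ξ η => b η * W (X (pt ξ η))) ?_ ?_ ?_ (C := M * C) ?_
  · intro X x₁ x₂ hX
    exact (CH_eta hbc).mul (cW.comp_continuousOn (contH hX.an.continuousOn))
  · intro X x₁ x₂ hX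
    have c1 := contH hX.an.continuousOn
    have c2 := contH hX.an.deriv.continuousOn
    exact (CH_eta hbc).mul (((hW.cx.comp_continuousOn c1).mul
      (Complex.continuous_re.comp_continuousOn c2)).add ((hW.cy.comp_continuousOn c1).mul
      (Complex.continuous_im.comp_continuousOn c2)))
  · intro X x₁ x₂ hX ξ hξ η hη
    have hm := pt_mem_RectH hξ hη
    have dX := d_xi (hX.an _ hm).differentiableAt
    have h1 := ((hW.hd (X (pt ξ η))).comp_hasDerivAt ξ dX).const_mul (b η)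
    refine h1.congr_deriv ?_
    simp
  · intro X x₁ x₂ hx hX hP ξ hξ η hη
    have h1 := hb η hη
    have h2 := bW (X (pt ξ η))
    have hs := sin_nn hη
    rw [abs_mul]
    calc |b η| * |W (X (pt ξ η))| ≤ (M * Real.sin η) * (C * (1 + ‖X (pt ξ η) - 1‖ ^ 2)) :=
          mul_le_mul h1 h2 (abs_nonneg _) (mul_nonneg hM hs)
      _ = M * C * Real.sin η * (1 + ‖X (pt ξ η) - 1‖ ^ 2) := by ring

/-- `U`-type, of second order -/
theorem isNullW_U {U Ux Uy Lap : ℂ → ℝ} (hU : C2f U Ux Uy Lap) {a a₁ a₂ : ℝ → ℝ}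
    (g1 : ∀ η, HasDerivAt a (a₁ η) η) (g2 : ∀ η, HasDerivAt a₁ (a₂ η) η)
    (g2c : Continuous a₂) (f1 : a 0 = 0) (f3 : a₁ 0 = 0) {C C₀ M : ℝ} (hC0 : 0 ≤ C)
    (hM : 0 ≤ M) (ha : ∀ η ∈ Icc (0:ℝ) (π / 2), |a η| ≤ M * Real.sin η ^ 2)
    (ha₁ : ∀ η ∈ Icc (0:ℝ) (π / 2), |a₁ η| ≤ M * Real.sin η)
    (bU : ∀ X, |U X| ≤ C * (1 + ‖X - 1‖ ^ 2))
    (bU' : ∀ X, (|Ux X| + |Uy X|) * ‖X‖ ≤ C * (1 + ‖X - 1‖ ^ 2))
    (hq : ∀ (X : ℂ → ℂ) (x₁ x₂ : ℝ), x₁ ≤ x₂ → NiceH X x₁ x₂ → P X x₁ x₂ →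
      ∀ ξ ∈ Icc x₁ x₂, ∀ η ∈ Icc (0:ℝ) (π / 2),
        Real.sin η * ‖deriv X (pt ξ η) / X (pt ξ η)‖ ≤ C₀) :
    IsNullW P (fun X ξ η => a η * Lap (X (pt ξ η)) * ‖deriv X (pt ξ η)‖ ^ 2 -
        a₂ η * U (X (pt ξ η)))
      (fun X ξ => a (π / 2) * dEta Ux Uy (X (pt ξ (π / 2))) (deriv X (pt ξ (π / 2))) -
        a₁ (π / 2) * U (X (pt ξ (π / 2)))) := by
  obtain ⟨Uxx, Uxy, Uyy, hUx, hUy, hLap⟩ := hU.h2
  have r1 := C1c_real hUx
  have r2 := C1c_I hUy
  have hH : C1c (fun X => (Ux X : ℂ) - I * (Uy X : ℂ)) (fun X => (Uxx X : ℂ) - I * (Uxy X : ℂ))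
      (fun X => (Uxy X : ℂ) - I * (Uyy X : ℂ)) := by
    refine ⟨fun X hX => ?_, r1.cx.sub r2.cx, r1.cy.sub r2.cy⟩
    refine ((r1.hd X hX).sub (r2.hd X hX)).congr_fderiv ?_
    ext v
    simp
    ring
  have a1c : Continuous a₁ := continuous_iff_continuousAt.2 fun t => (g2 t).continuousAt
  have h1 := isNullW_G (P := P) hH anF_Y g1 a1c f1 (C := M * (C * C₀)) (by
    intro X x₁ x₂ hx hX hP ξ hξ η hη
    have q := hq X x₁ x₂ hx hX hP ξ hξ η hη
    have b1 := bU' (X (pt ξ η))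
    have b2 := ha η hη
    have hs := sin_nn hη
    have hne := hX.ne _ (pt_mem_RectH hξ hη)
    generalize X (pt ξ η) = Z at *
    generalize deriv X (pt ξ η) = Y at *
    have hn : ‖(Ux Z : ℂ) - I * (Uy Z : ℂ)‖ ≤ |Ux Z| + |Uy Z| := by
      refine (norm_sub_le _ _).trans ?_
      rw [norm_mul, norm_I, one_mul, norm_real, norm_real, Real.norm_eq_abs, Real.norm_eq_abs]
    have hYZ : ‖Y‖ = ‖Z‖ * ‖Y / Z‖ := by
      rw [norm_div, mul_div_cancel₀ _ (norm_ne_zero_iff.2 hne)]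
    calc |a η| * (‖(Ux Z : ℂ) - I * (Uy Z : ℂ)‖ * ‖Y‖)
        ≤ (M * Real.sin η ^ 2) * ((|Ux Z| + |Uy Z|) * ‖Y‖) :=
          mul_le_mul b2 (mul_le_mul_of_nonneg_right hn (norm_nonneg _))
            (by positivity) (by positivity)
      _ = M * Real.sin η * (((|Ux Z| + |Uy Z|) * ‖Z‖) * (Real.sin η * ‖Y / Z‖)) := by
          rw [hYZ]; ring
      _ ≤ M * Real.sin η * ((C * (1 + ‖Z - 1‖ ^ 2)) * C₀) := by
          refine mul_le_mul_of_nonneg_left ?_ (mul_nonneg hM hs)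
          exact mul_le_mul b1 q (mul_nonneg hs (norm_nonneg _)) (by positivity)
      _ = M * (C * C₀) * Real.sin η * (1 + ‖Z - 1‖ ^ 2) := by ring)
  have h2 := isNullW_V (P := P) hU.h1 (b := fun η => -a₁ η) (b₁ := fun η => -a₂ η)
    (fun η => (g2 η).neg) g2c.neg (by simp [f3]) (C := C) hM
    (fun η hη => by rw [abs_neg]; exact ha₁ η hη) bU
  refine (h1.add h2).congr ?_ ?_
  · intro X ξ η
    rw [hLap]
    unfold NG dEta
    rw [← normSq_eq_norm_sq, normSq_apply]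
    simp only [mul_re, mul_im, add_re, add_im, sub_re, sub_im, conj_re, conj_im, ofReal_re,
      ofReal_im, I_re, I_im]
    ring
  · intro X ξ
    unfold dEta
    simp only [mul_re, mul_im, sub_re, sub_im, ofReal_re, ofReal_im, I_re, I_im]
    ring

/-- powers of `X - 1` times a function of `η` -/
theorem isNullW_har {β : ℝ → ℝ} (hβ : Continuous β) (m : ℕ) (hm : m ≤ 2) :
    IsNullW P (fun X ξ η => β η * ((X (pt ξ η) - 1) ^ m).re)
      (fun X ξ => (∫ t in (0:ℝ)..(π / 2), β t) * ((X (pt ξ (π / 2)) - 1) ^ m).re) := by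
  have hd : ∀ η : ℝ, HasDerivAt (fun η => -∫ t in (0:ℝ)..η, β t) (-β η) η := fun η =>
    (intervalIntegral.integral_hasDerivAt_right (hβ.intervalIntegrable _ _)
      hβ.stronglyMeasurable.stronglyMeasurableAtFilter hβ.continuousAt).neg
  have hF : C1c (fun X => I * (X - 1) ^ m) (fun X => I * ((m : ℂ) * (X - 1) ^ (m - 1)))
      (fun X => I * (I * ((m : ℂ) * (X - 1) ^ (m - 1)))) := by
    refine C1c_holo (fun X => ?_) (by fun_prop)
    have h1 : HasDerivAt (fun X : ℂ => X - 1) 1 X := (hasDerivAt_id X).sub_const 1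
    have h2 : HasDerivAt (fun X : ℂ => (X - 1) ^ m) ((m : ℂ) * (X - 1) ^ (m - 1)) X :=
      (h1.fun_pow m).congr_deriv (by ring)
    exact h2.const_mul I
  obtain ⟨B, hB⟩ := (isCompact_Icc (a := (0:ℝ)) (b := π / 2)).bddAbove_image
    hβ.abs.continuousOn
  have hB' : ∀ η ∈ Icc (0:ℝ) (π / 2), |β η| ≤ B := fun η hη => hB (mem_image_of_mem _ hη)
  have hB0 : 0 ≤ B := (abs_nonneg _).trans (hB' 0 ⟨le_rfl, by positivity⟩)
  have h := isNullW_G (P := P) hF anF_one hd hβ.neg (by simp) (C := B * (π / 2)) (by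
      intro X x₁ x₂ hx hX hP ξ hξ η hη
      have h1 : ‖∫ t in (0:ℝ)..η, β t‖ ≤ B * |η - 0| := by
        refine intervalIntegral.norm_integral_le_of_norm_le_const fun t ht => ?_
        rw [uIoc_of_le hη.1] at ht
        exact hB' t ⟨ht.1.le, ht.2.trans hη.2⟩
      rw [Real.norm_eq_abs, sub_zero, abs_of_nonneg hη.1] at h1
      have h2 := Real.mul_le_sin hη.1 hη.2
      have hp := Real.pi_pos
      rw [div_mul_eq_mul_div, div_le_iff₀ hp] at h2
      have h3 : |-∫ t in (0:ℝ)..η, β t| ≤ B * (π / 2) * Real.sin η := by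
        rw [abs_neg]
        refine h1.trans ?_
        rw [mul_assoc]
        refine mul_le_mul_of_nonneg_left ?_ hB0
        linarith
      have h4 := norm_pow_le m hm (X (pt ξ η))
      rw [one_mul] at h4
      rw [norm_mul, norm_I, one_mul, norm_one, mul_one]
      exact mul_le_mul h3 h4 (norm_nonneg _)
        (mul_nonneg (mul_nonneg hB0 (by positivity)) (sin_nn hη)))
  refine h.congr ?_ ?_
  · intro X ξ η
    unfold NG
    have e : I * ((m : ℂ) * (X (pt ξ η) - 1) ^ (m - 1)) +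
        I * (I * (I * ((m : ℂ) * (X (pt ξ η) - 1) ^ (m - 1)))) = 0 := by
      linear_combination (I * (m : ℂ) * (X (pt ξ η) - 1) ^ (m - 1)) * I_sq
    rw [e]
    simp
  · intro X ξ
    simp

end Pool.Agent.Helper84.CK
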