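import Pool.Agent.Helper84.CK.StripW
import Pool.Agent.Helper69.EK7.KOneF
set_option autoImplicit false
open Complex MeasureTheory Metric Set
open scoped Real ComplexConjugate

/-!
# Project CK: the bound for one target with a weight and the critical multiplier
-/

namespace Pool.Agent.Helper84.CK

open Pool.Agent.Helper39.Area Pool.Agent.Helper52.EK Pool.Agent.Helper69.EK3
open Pool.Agent.Helper69.EK7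

/-- the integrated inequality with a weight -/
def StripIneqW (lam k₂ dc : ℝ) (T Mt : (ℂ → ℂ) → ℝ → ℝ → ℝ) (adm : (ℂ → ℂ) → ℝ → ℝ → Prop) :
    Prop :=
  ∃ C : ℝ, 0 ≤ C ∧ ∀ (X : ℂ → ℂ) (x₁ x₂ V : ℝ) (Ω Ω₁ Ω₂ : ℝ → ℝ → ℝ), x₁ ≤ x₂ → 0 ≤ V →
    WtF x₁ x₂ V Ω Ω₁ Ω₂ → NiceX X x₁ x₂ → adm X x₁ x₂ →
    II x₁ x₂ (fun ξ η => Ω ξ η * T X ξ η) ≤
    lam * II x₁ x₂ (fun ξ η => ‖X (pt ξ η) - 1‖ ^ 2) +
      (k₂ - lam) * (π * ∫ ξ in x₁..x₂, (1 - (X (pt ξ (π / 2))).re)) +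
      dc * (π * (x₂ - x₁)) +
      II x₁ x₂ (fun ξ η => Ω ξ η * Mt X ξ η) +
      C * (1 + V * (x₂ - x₁ + II x₁ x₂ (fun ξ η => ‖X (pt ξ η) - 1‖ ^ 2)))

/-- a cut-off function of one variable -/
structure Cut1 (x₁ x₂ V : ℝ) (χ χ₁ : ℝ → ℝ) : Prop where
  c0 : ContinuousOn χ (Icc x₁ x₂)
  c1 : ContinuousOn χ₁ (Icc x₁ x₂)
  d : ∀ ξ ∈ Icc x₁ x₂, HasDerivAt χ (χ₁ ξ) ξ
  e1 : χ x₁ = 0
  e2 : χ x₂ = 0
  b01 : ∀ ξ ∈ Icc x₁ x₂, 0 ≤ χ ξ ∧ χ ξ ≤ 1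
  k1 : ∀ ξ ∈ Icc x₁ x₂, |χ₁ ξ| ≤ V

theorem pi2_mem' : π / 2 ∈ Icc (0:ℝ) π := ⟨by positivity, by linarith [Real.pi_pos]⟩

theorem WtF.line {x₁ x₂ V : ℝ} {Ω Ω₁ Ω₂ : ℝ → ℝ → ℝ} (h : WtF x₁ x₂ V Ω Ω₁ Ω₂) :
    Cut1 x₁ x₂ V (fun ξ => Ω ξ (π / 2)) (fun ξ => Ω₁ ξ (π / 2)) := by
  refine ⟨CH_line h.half.c0 pi2_mem, CH_line h.half.c1 pi2_mem,
    fun ξ hξ => h.d1 ξ hξ _ pi2_mem', h.e1 _ pi2_mem', h.e2 _ pi2_mem',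
    fun ξ hξ => h.b01 ξ hξ _ pi2_mem', fun ξ hξ => ?_⟩
  have := h.g1 ξ hξ _ pi2_mem'
  rwa [Real.sin_pi_div_two, mul_one] at this

variable {P : (ℂ → ℂ) → ℝ → ℝ → Prop}

/-- the integrated inequality from the pointwise one and the centre line -/
theorem stripW_b {k₂ lam dc D : ℝ} (hlam : 0 ≤ lam) (hk₂ : lam ≤ k₂) (hdc : 0 ≤ dc)
    {T Mt : (ℂ → ℂ) → ℝ → ℝ → ℝ}
    (hTc : ∀ (X : ℂ → ℂ) (x₁ x₂ : ℝ), NiceX X x₁ x₂ → CH x₁ x₂ π (T X))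
    (hTh : ∀ (X : ℂ → ℂ) (x₁ x₂ : ℝ), NiceH X x₁ x₂ → CH x₁ x₂ (π / 2) (T X))
    (hTm : ∀ (X : ℂ → ℂ) (x₁ x₂ : ℝ), NiceX X x₁ x₂ → ∀ ξ ∈ Icc x₁ x₂,
      ∀ η ∈ Icc (0:ℝ) (π / 2), T X ξ (π - η) = T (mir X) ξ η)
    (hMc : ∀ (X : ℂ → ℂ) (x₁ x₂ : ℝ), NiceX X x₁ x₂ → CH x₁ x₂ π (Mt X))
    (hMh : ∀ (X : ℂ → ℂ) (x₁ x₂ : ℝ), NiceH X x₁ x₂ → CH x₁ x₂ (π / 2) (Mt X))
    (hMm : ∀ (X : ℂ → ℂ) (x₁ x₂ : ℝ), NiceX X x₁ x₂ → ∀ ξ ∈ Icc x₁ x₂,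
      ∀ η ∈ Icc (0:ℝ) (π / 2), Mt X ξ (π - η) = Mt (mir X) ξ η)
    {N : (ℂ → ℂ) → ℝ → ℝ → ℝ} {K : (ℂ → ℂ) → ℝ → ℝ} (hN : IsNullW P N K)
    (hp : ∀ (X : ℂ → ℂ) (x₁ x₂ : ℝ), x₁ ≤ x₂ → NiceH X x₁ x₂ → P X x₁ x₂ →
      ∃ ε : ℝ → ℝ, Continuous ε ∧ (∀ ξ, 0 ≤ ε ξ) ∧ ∫ ξ in x₁..x₂, ε ξ ≤ D ∧
        ∀ ξ ∈ Icc x₁ x₂, ∀ η ∈ Icc (0:ℝ) (π / 2),
          T X ξ η ≤ k₂ * (1 - (X (pt ξ η)).re) +
            lam * (‖X (pt ξ η)‖ ^ 2 - (X (pt ξ η)).re) + dc + N X ξ η + Mt X ξ η + ε ξ)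
    {Q : (ℂ → ℂ) → ℝ → ℝ → Prop}
    (hCen : ∃ C' : ℝ, ∀ (x₁ x₂ V : ℝ) (χ χ₁ : ℝ → ℝ) (X : ℂ → ℂ),
      Cut1 x₁ x₂ V χ χ₁ → x₁ ≤ x₂ → 0 ≤ V → NiceX X x₁ x₂ → Q X x₁ x₂ →
      ∫ ξ in x₁..x₂, χ ξ * (K X ξ + K (mir X) ξ) ≤ C' * (1 + V * (x₂ - x₁)))
    {D' : ℝ} (hQ : ∀ (X : ℂ → ℂ) (x₁ x₂ : ℝ), Q X x₁ x₂ → ∃ δ : ℝ → ℝ, Continuous δ ∧
      (∀ ξ ∈ Icc x₁ x₂, 0 ≤ δ ξ) ∧ (∀ ξ ∈ Icc x₁ x₂, (X (pt ξ (π / 2))).re ≤ 1 + δ ξ) ∧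
      ∫ ξ in x₁..x₂, δ ξ ≤ D') :
    StripIneqW lam k₂ dc T Mt (fun X x₁ x₂ => P X x₁ x₂ ∧ P (mir X) x₁ x₂ ∧ Q X x₁ x₂) := by
  obtain ⟨C, hC0, hC⟩ := stripW hlam hk₂ hdc hTc hTh hTm hMc hMh hMm hN hp
  obtain ⟨C', hC'⟩ := hCen
  have hkl : 0 ≤ k₂ - lam := by linarith
  refine ⟨C * π + |C'| + (k₂ - lam) * (π * |D'|), by positivity, ?_⟩
  rintro X x₁ x₂ V Ω Ω₁ Ω₂ hx12 hV hw hX ⟨hP, hP', hQX⟩
  obtain ⟨δ, cδ, δ0, hδ, hD'⟩ := hQ X x₁ x₂ hQX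
  have hmain := hC X x₁ x₂ V Ω Ω₁ Ω₂ hx12 hV hw hX hP hP'
  have hl := hw.line
  have h1 := hC' x₁ x₂ V _ _ X hl hx12 hV hX hQX
  have hE0 : 0 ≤ II x₁ x₂ (fun ξ η => ‖X (pt ξ η) - 1‖ ^ 2) := by
    rw [← En_add hx12 hX]
    exact add_nonneg (En_nonneg hx12) (En_nonneg hx12)
  -- the linear term
  have cXc : ContinuousOn (fun ξ : ℝ => (X (pt ξ (π / 2))).re) (Icc x₁ x₂) :=
    Complex.continuous_re.comp_continuousOn (contC (NiceX.half hX).an.continuousOn)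
  have h2 : ∫ ξ in x₁..x₂, Ω ξ (π / 2) * (1 - (X (pt ξ (π / 2))).re) ≤
      (∫ ξ in x₁..x₂, (1 - (X (pt ξ (π / 2))).re)) + |D'| := by
    have j1 : ContinuousOn (fun ξ : ℝ => Ω ξ (π / 2) * (1 - (X (pt ξ (π / 2))).re))
        (Icc x₁ x₂) := hl.c0.mul (continuousOn_const.sub cXc)
    have j2 : ContinuousOn (fun ξ : ℝ => (1 - (X (pt ξ (π / 2))).re)) (Icc x₁ x₂) :=
      continuousOn_const.sub cXc
    have j3 : ContinuousOn δ (Icc x₁ x₂) := cδ.continuousOn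
    have i1 : IntervalIntegrable (fun ξ : ℝ => Ω ξ (π / 2) * (1 - (X (pt ξ (π / 2))).re))
        volume x₁ x₂ := j1.intervalIntegrable_of_Icc hx12
    have i2 : IntervalIntegrable (fun ξ : ℝ => (1 - (X (pt ξ (π / 2))).re)) volume x₁ x₂ :=
      j2.intervalIntegrable_of_Icc hx12
    have i3 : IntervalIntegrable δ volume x₁ x₂ := j3.intervalIntegrable_of_Icc hx12
    have m : ∫ ξ in x₁..x₂, Ω ξ (π / 2) * (1 - (X (pt ξ (π / 2))).re) ≤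
        ∫ ξ in x₁..x₂, ((1 - (X (pt ξ (π / 2))).re) + δ ξ) := by
      refine intervalIntegral.integral_mono_on hx12 i1 (i2.add i3) ?_
      intro ξ hξ
      obtain ⟨w0, w1⟩ := hl.b01 ξ hξ
      have r1 := hδ ξ hξ
      have r2 := δ0 ξ hξ
      obtain ⟨p, hp⟩ : ∃ p, p = (X (pt ξ (π / 2))).re := ⟨_, rfl⟩
      obtain ⟨o, ho⟩ : ∃ o, o = Ω ξ (π / 2) := ⟨_, rfl⟩
      obtain ⟨q, hq⟩ : ∃ q, q = δ ξ := ⟨_, rfl⟩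
      have w0' : 0 ≤ o := by rw [ho]; exact w0
      have w1' : o ≤ 1 := by rw [ho]; exact w1
      rw [← hp, ← hq] at r1
      rw [← hq] at r2
      rw [← hp, ← ho, ← hq]
      nlinarith
    rw [intervalIntegral.integral_add i2 i3] at m
    have := hD'.trans (le_abs_self D')
    linarith
  obtain ⟨E, hE⟩ : ∃ E, E = II x₁ x₂ (fun ξ η => ‖X (pt ξ η) - 1‖ ^ 2) := ⟨_, rfl⟩
  rw [← hE] at hmain hE0 ⊢
  have h3 : (k₂ - lam) * (π * ∫ ξ in x₁..x₂, Ω ξ (π / 2) * (1 - (X (pt ξ (π / 2))).re)) ≤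
      (k₂ - lam) * (π * ((∫ ξ in x₁..x₂, (1 - (X (pt ξ (π / 2))).re)) + |D'|)) :=
    mul_le_mul_of_nonneg_left (mul_le_mul_of_nonneg_left h2 Real.pi_pos.le) hkl
  have h4 : (k₂ - lam) * (π * ((∫ ξ in x₁..x₂, (1 - (X (pt ξ (π / 2))).re)) + |D'|)) =
      (k₂ - lam) * (π * ∫ ξ in x₁..x₂, (1 - (X (pt ξ (π / 2))).re)) +
        (k₂ - lam) * (π * |D'|) := by ring
  have hd : 0 ≤ x₂ - x₁ := by linarith
  have hVd : 0 ≤ V * (x₂ - x₁) := mul_nonneg hV hd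
  have hVE : 0 ≤ V * E := mul_nonneg hV hE0
  have h5 : C' * (1 + V * (x₂ - x₁)) ≤ |C'| * (1 + V * (x₂ - x₁)) :=
    mul_le_mul_of_nonneg_right (le_abs_self C') (by linarith)
  have hpi := Real.pi_pos
  have hpi1 : 1 ≤ π := by linarith [Real.pi_gt_three]
  have h6 : C * (1 + V * (π * (x₂ - x₁) + E)) ≤ C * π * (1 + V * (x₂ - x₁ + E)) := by
    rw [mul_assoc]
    refine mul_le_mul_of_nonneg_left ?_ hC0
    nlinarith [mul_nonneg (sub_nonneg.2 hpi1) hVE]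
  have h7 : (C * π + |C'| + (k₂ - lam) * (π * |D'|)) * (1 + V * (x₂ - x₁ + E)) =
      C * π * (1 + V * (x₂ - x₁ + E)) + |C'| * (1 + V * (x₂ - x₁)) + |C'| * (V * E) +
        (k₂ - lam) * (π * |D'|) + (k₂ - lam) * (π * |D'|) * (V * (x₂ - x₁) + V * E) := by ring
  have n1 : 0 ≤ |C'| * (V * E) := mul_nonneg (abs_nonneg _) hVE
  have n2 : 0 ≤ (k₂ - lam) * (π * |D'|) * (V * (x₂ - x₁) + V * E) :=
    mul_nonneg (mul_nonneg hkl (by positivity)) (by linarith)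
  rw [h7]
  linarith

/-- **the bound for one target, with a weight and with the critical multiplier** -/
theorem K_oneW {lam k₂ dc κ : ℝ} {w : (ℂ → ℂ) → ℂ → ℂ} {T Mt : (ℂ → ℂ) → ℝ → ℝ → ℝ}
    (hE3 : ∃ C : ℝ, ∀ (β : ℂ → ℂ) (R a : ℝ), ExtR β R → Real.exp (-1) < a → a < 1 →
      Real.log (tau a) + 1 ≤ -1 →
      Kf (w β) 1 (-1) (Real.log a) ≤ π⁻¹ * II (Real.log (tau a) + 1) (-1) (T (Xf β a)) + C)
    (hT4 : ∀ (X : ℂ → ℂ) (ξ η : ℝ), T X ξ η ≤ 4)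
    (hTc : ∀ (X : ℂ → ℂ) (x₁ x₂ : ℝ), NiceX X x₁ x₂ → CH x₁ x₂ π (T X))
    {adm : (ℂ → ℂ) → ℝ → ℝ → Prop}
    (hadm : ∀ (β : ℂ → ℂ) (R a : ℝ), ExtR β R → 0 < a → a < 1 → Real.log (tau a) + 1 ≤ -1 →
      adm (Xf β a) (Real.log (tau a) + 1) (-1))
    (line : ∀ δ : ℝ, 0 < δ → ∃ C : ℝ, ∀ (β : ℂ → ℂ) (R a : ℝ), ExtR β R → 0 < a → a < 1 →
      ∀ x₁ x₂ : ℝ, Real.log (tau a) + 1 ≤ x₁ → x₁ ≤ x₂ → x₂ ≤ -1 →
      2 * ∫ ξ in x₁..x₂, (1 - (Xf β a (pt ξ (π / 2))).re) ≤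
        (1 + δ) * Real.log (‖N β a‖ / (1 - a ^ 2)) + C)
    (hS : StripIneqW lam k₂ dc T Mt adm) (h0 : 0 ≤ lam) (h1 : lam ≤ k₂)
    (hκ : k₂ < 2 * κ) : ∃ e C V₀ a₀ : ℝ, 0 < e ∧ 0 ≤ C ∧ 0 < V₀ ∧ a₀ < 1 ∧
      ∀ (β : ℂ → ℂ) (R a V : ℝ) (Ω Ω₁ Ω₂ : ℝ → ℝ → ℝ), ExtR β R → a₀ < a → a < 1 →
      0 ≤ V → V ≤ V₀ → WtF (Real.log (tau a) + 1) (-1) V Ω Ω₁ Ω₂ →
      Kf (w β) 1 (-1) (Real.log a) +
          e * II (Real.log (tau a) + 1) (-1) (fun ξ η => ‖Xf β a (pt ξ η) - 1‖ ^ 2) ≤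
        κ * Real.log (‖N β a‖ / (1 - a ^ 2)) +
          π⁻¹ * II (Real.log (tau a) + 1) (-1) (fun ξ η => Ω ξ η * Mt (Xf β a) ξ η) +
          4 * π⁻¹ * II (Real.log (tau a) + 1) (-1) (fun ξ η => 1 - Ω ξ η) +
          dc * (-1 - (Real.log (tau a) + 1)) +
          C * (1 + V * (-1 - (Real.log (tau a) + 1))) := by
  obtain ⟨C₁, hC₁0, hC₁⟩ := hS
  obtain ⟨Cd, hCd⟩ := Pool.Agent.Helper16.EK.E1d
  obtain ⟨d, hd⟩ : ∃ d, d = 2 * κ - k₂ := ⟨_, rfl⟩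
  have hd0 : 0 < d := by rw [hd]; linarith
  obtain ⟨V₀, hV₀⟩ : ∃ V₀, V₀ = d / (8 * (C₁ + 1)) := ⟨_, rfl⟩
  have hV₀0 : 0 < V₀ := by rw [hV₀]; positivity
  have hCV : C₁ * V₀ ≤ d / 8 := by
    have h2 : 8 * (V₀ * (C₁ + 1)) = d := by
      rw [hV₀]
      field_simp
    nlinarith
  -- the energy coefficient
  obtain ⟨k, hk⟩ : ∃ k, k = lam + d / 8 + d / 8 := ⟨_, rfl⟩
  have hk0 : 0 ≤ k := by rw [hk]; linarith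
  obtain ⟨g, hg⟩ : ∃ g, g = d / (4 * (k + 1)) := ⟨_, rfl⟩
  have hg0 : 0 < g := by rw [hg]; positivity
  have hkg : k * g ≤ d / 4 := by
    have h2 : 4 * (g * (k + 1)) = d := by
      rw [hg]
      field_simp
    nlinarith
  obtain ⟨e, he⟩ : ∃ e, e = d / (4 * (k₂ - lam + 1)) := ⟨_, rfl⟩
  have hkl : 0 < k₂ - lam + 1 := by linarith
  have he0 : 0 < e := by rw [he]; positivity
  have hke : (k₂ - lam) * e ≤ d / 4 := by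
    have h2 : 4 * (e * (k₂ - lam + 1)) = d := by
      rw [he]
      field_simp
    nlinarith
  obtain ⟨Cs, hCs⟩ := line e he0
  obtain ⟨C₃, hC₃⟩ := hE3
  have hπ : 0 < π := Real.pi_pos
  have hπi : 0 < π⁻¹ := inv_pos.mpr hπ
  refine ⟨π⁻¹ * (d / 8), |C₃| + π⁻¹ * (k * ((1 + 1 / g) * |Cd|)) + (k₂ - lam) * (|Cs| / 2) +
    π⁻¹ * C₁, V₀, max (Real.exp (-1)) (1 - Real.exp (-2 * 1)), by positivity,
    by
      have : 0 ≤ k₂ - lam := by linarith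
      positivity, hV₀0, ?_, ?_⟩
  · apply max_lt
    · rw [← Real.exp_zero]
      exact Real.exp_lt_exp.mpr (by norm_num)
    · linarith [Real.exp_pos (-2 * 1)]
  intro β R a V Ω Ω₁ Ω₂ hβ ha ha1 hV hVV hw
  have hae : Real.exp (-1) < a := lt_of_le_of_lt (le_max_left _ _) ha
  have ha0 : 0 < a := (Real.exp_pos _).trans hae
  have hfar := Pool.Agent.Helper83.EK.tau_far (A := 1) (lt_of_le_of_lt (le_max_right _ _) ha) ha0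
    ha1
  have hK := hC₃ β R a hβ hae ha1 hfar
  obtain ⟨x₁, hx₁⟩ : ∃ x₁, x₁ = Real.log (tau a) + 1 := ⟨_, rfl⟩
  rw [← hx₁] at hK hfar hw ⊢
  have hx12 : x₁ ≤ -1 := by linarith
  have hxt : Real.log (tau a) < x₁ := by linarith
  have hX : NiceX (Xf β a) x₁ (-1) := Pool.Agent.Helper67.EK.E1c hβ ha0 ha1 hxt (by norm_num)
  have hst := hC₁ (Xf β a) x₁ (-1) V Ω Ω₁ Ω₂ hx12 hV hw hX (by
    rw [hx₁]
    exact hadm β R a hβ ha0 ha1 (by rw [← hx₁]; exact hx12))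
  have hb := Pool.Agent.Helper86.EK.E1b hβ ha0 ha1 hxt hx12 (by norm_num)
  have hdd := hCd a ha0 ha1 x₁ (-1) hx₁.ge hx12 le_rfl
  have hs := hCs β R a hβ ha0 ha1 x₁ (-1) hx₁.ge hx12 le_rfl
  obtain ⟨Λ, hΛ⟩ : ∃ Λ, Λ = Real.log (‖N β a‖ / (1 - a ^ 2)) := ⟨_, rfl⟩
  rw [← hΛ] at hb hs ⊢
  -- the part where the weight is smaller than `1`
  have cT : CH x₁ (-1) π (T (Xf β a)) := hTc _ _ _ hX
  have hsplit : II x₁ (-1) (T (Xf β a)) ≤ II x₁ (-1) (fun ξ η => Ω ξ η * T (Xf β a) ξ η) +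
      4 * II x₁ (-1) (fun ξ η => 1 - Ω ξ η) := by
    have e1 : ∀ (y₁ y₂ : ℝ) (F : ℝ → ℝ → ℝ), II y₁ y₂ F = IH y₁ y₂ π F := fun _ _ _ => rfl
    have c3 : CH x₁ (-1) π (fun ξ η => 4 * (1 - Ω ξ η)) :=
      (CH_const 4).mul (CH.sub (CH_const 1) hw.c0)
    rw [e1, e1, e1, ← IH_const_mul, ← IH_add hx12 hπ.le (hw.c0.mul cT) c3]
    refine IH_mono hx12 hπ.le cT ((hw.c0.mul cT).add c3) ?_
    intro ξ hξ η hη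
    obtain ⟨w0, w1⟩ := hw.b01 ξ hξ η hη
    have h4 := hT4 (Xf β a) ξ η
    nlinarith
  -- continuity
  have cX : ContinuousOn (fun v : ℝ × ℝ => Xf β a (pt v.1 v.2)) (Icc x₁ (-1) ×ˢ Icc 0 π) :=
    hX.an.continuousOn.comp Pool.Agent.Helper70.EK.continuous_pt.continuousOn
      (Pool.Agent.Helper83.EK.pt_mapsTo _ _)
  have cK : ContinuousOn (fun v : ℝ × ℝ => kap a (pt v.1 v.2)) (Icc x₁ (-1) ×ˢ Icc 0 π) :=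
    Pool.Agent.Helper83.EK.kap_contOn ha0 ha1 hxt (by norm_num)
  have c1 : ContinuousOn (fun v : ℝ × ℝ => ‖Xf β a (pt v.1 v.2) - 1‖ ^ 2)
      (Icc x₁ (-1) ×ˢ Icc 0 π) := (cX.sub continuousOn_const).norm.pow 2
  have c2 : ContinuousOn (fun v : ℝ × ℝ => ‖2 * Xf β a (pt v.1 v.2) - 2 * kap a (pt v.1 v.2)‖ ^ 2)
      (Icc x₁ (-1) ×ˢ Icc 0 π) :=
    ((continuousOn_const.mul cX).sub (continuousOn_const.mul cK)).norm.pow 2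
  have c3 : ContinuousOn (fun v : ℝ × ℝ => ‖kap a (pt v.1 v.2) - 1‖ ^ 2)
      (Icc x₁ (-1) ×ˢ Icc 0 π) := (cK.sub continuousOn_const).norm.pow 2
  have hE := Pool.Agent.Helper83.EK.II_le3 (F₁ := fun ξ η => ‖Xf β a (pt ξ η) - 1‖ ^ 2)
    (F₂ := fun ξ η => ‖2 * Xf β a (pt ξ η) - 2 * kap a (pt ξ η)‖ ^ 2)
    (F₃ := fun ξ η => ‖kap a (pt ξ η) - 1‖ ^ 2) (p := (1 + g) / 4) (q := 1 + 1 / g)
    hx12 c1 c2 c3 (by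
      intro ξ η
      have h1 : Xf β a (pt ξ η) - 1 = (2 * Xf β a (pt ξ η) - 2 * kap a (pt ξ η)) / 2 +
        (kap a (pt ξ η) - 1) := by ring
      have h2 : ‖Xf β a (pt ξ η) - 1‖ ≤ ‖2 * Xf β a (pt ξ η) - 2 * kap a (pt ξ η)‖ / 2 +
          ‖kap a (pt ξ η) - 1‖ := by
        rw [h1]
        refine (norm_add_le _ _).trans ?_
        rw [norm_div]
        simp
      have h3 := norm_nonneg (Xf β a (pt ξ η) - 1)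
      have h4 := norm_nonneg (2 * Xf β a (pt ξ η) - 2 * kap a (pt ξ η))
      have h5 := norm_nonneg (kap a (pt ξ η) - 1)
      generalize ‖Xf β a (pt ξ η) - 1‖ = u at *
      generalize ‖2 * Xf β a (pt ξ η) - 2 * kap a (pt ξ η)‖ = v at *
      generalize ‖kap a (pt ξ η) - 1‖ = w at *
      have h6 : u ^ 2 ≤ (v / 2 + w) ^ 2 := by nlinarith
      have h7 : (v / 2 + w) ^ 2 ≤ (1 + g) / 4 * v ^ 2 + (1 + 1 / g) * w ^ 2 := by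
        have h8 : (1 + g) / 4 * v ^ 2 + (1 + 1 / g) * w ^ 2 - (v / 2 + w) ^ 2 =
            (g * v / 2 - w) ^ 2 / g := by
          field_simp
          ring
        have h9 : 0 ≤ (g * v / 2 - w) ^ 2 / g := by positivity
        linarith
      exact h6.trans h7)
  -- assemble
  have hEn : 0 ≤ II x₁ (-1) (fun ξ η => ‖Xf β a (pt ξ η) - 1‖ ^ 2) :=
    Pool.Agent.Helper83.EK.II_nonneg hx12 (fun ξ η => by positivity)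
  obtain ⟨E, hEdef⟩ : ∃ E, E = II x₁ (-1) (fun ξ η => ‖Xf β a (pt ξ η) - 1‖ ^ 2) := ⟨_, rfl⟩
  rw [← hEdef] at hE hEn hst ⊢
  obtain ⟨S, hSdef⟩ : ∃ S, S = ∫ ξ in x₁..(-1), (1 - (Xf β a (pt ξ (π / 2))).re) := ⟨_, rfl⟩
  rw [← hSdef] at hst hs
  obtain ⟨Mv, hMv⟩ : ∃ Mv, Mv = II x₁ (-1) (fun ξ η => Ω ξ η * Mt (Xf β a) ξ η) := ⟨_, rfl⟩
  rw [← hMv] at hst ⊢
  obtain ⟨Wv, hWv⟩ : ∃ Wv, Wv = II x₁ (-1) (fun ξ η => 1 - Ω ξ η) := ⟨_, rfl⟩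
  rw [← hWv] at hsplit ⊢
  have hE2 : E ≤ (1 + g) / 4 * (2 * π * Λ) + (1 + 1 / g) * |Cd| := by
    have h1 : 0 < (1 + g) / 4 := by positivity
    have h2 : 0 < 1 + 1 / g := by positivity
    have h3 := mul_le_mul_of_nonneg_left hb h1.le
    have h4 := mul_le_mul_of_nonneg_left (hdd.trans (le_abs_self Cd)) h2.le
    linarith
  have hΛ0 : 0 ≤ Λ := by
    have h1 : 0 ≤ II x₁ (-1) (fun ξ η => ‖2 * Xf β a (pt ξ η) - 2 * kap a (pt ξ η)‖ ^ 2) :=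
      Pool.Agent.Helper83.EK.II_nonneg hx12 (fun ξ η => by positivity)
    have h2 : 0 ≤ 2 * π * Λ := h1.trans hb
    exact nonneg_of_mul_nonneg_right h2 (by positivity)
  have hlen : 0 ≤ -1 - x₁ := by linarith
  have hVl : 0 ≤ V * (-1 - x₁) := mul_nonneg hV hlen
  have hCVE : C₁ * (V * E) ≤ d / 8 * E := by
    have h1 : C₁ * V ≤ d / 8 := (mul_le_mul_of_nonneg_left hVV hC₁0).trans hCV
    have h2 := mul_le_mul_of_nonneg_right h1 hEn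
    linarith
  have hT : II x₁ (-1) (T (Xf β a)) + d / 8 * E ≤
      k * E + (k₂ - lam) * (π * S) + dc * (π * (-1 - x₁)) + Mv + 4 * Wv +
        C₁ * (1 + V * (-1 - x₁)) := by
    have h3 : C₁ * (1 + V * (-1 - x₁ + E)) = C₁ * (1 + V * (-1 - x₁)) + C₁ * (V * E) := by ring
    rw [hk, add_mul, add_mul]
    linarith
  have h2 : k * E ≤ k * ((1 + g) / 4 * (2 * π * Λ) + (1 + 1 / g) * |Cd|) :=
    mul_le_mul_of_nonneg_left hE2 hk0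
  have h3 : (k₂ - lam) * (π * S) ≤ (k₂ - lam) * (π * (((1 + e) * Λ + |Cs|) / 2)) := by
    refine mul_le_mul_of_nonneg_left (mul_le_mul_of_nonneg_left ?_ hπ.le) (by linarith)
    linarith [le_abs_self Cs]
  have h4 : π⁻¹ * (II x₁ (-1) (T (Xf β a)) + d / 8 * E) ≤
      π⁻¹ * (k * ((1 + g) / 4 * (2 * π * Λ) + (1 + 1 / g) * |Cd|) +
        (k₂ - lam) * (π * (((1 + e) * Λ + |Cs|) / 2)) + dc * (π * (-1 - x₁)) + Mv + 4 * Wv +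
        C₁ * (1 + V * (-1 - x₁))) :=
    mul_le_mul_of_nonneg_left (by linarith) hπi.le
  have h5 : π⁻¹ * (k * ((1 + g) / 4 * (2 * π * Λ) + (1 + 1 / g) * |Cd|) +
        (k₂ - lam) * (π * (((1 + e) * Λ + |Cs|) / 2)) + dc * (π * (-1 - x₁)) + Mv + 4 * Wv +
        C₁ * (1 + V * (-1 - x₁))) =
      (k * (1 + g) + (k₂ - lam) * (1 + e)) / 2 * Λ + π⁻¹ * (k * ((1 + 1 / g) * |Cd|)) +
        (k₂ - lam) * (|Cs| / 2) + dc * (-1 - x₁) + π⁻¹ * Mv + 4 * π⁻¹ * Wv +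
        π⁻¹ * C₁ * (1 + V * (-1 - x₁)) := by
    field_simp
    ring
  have h6 : (k * (1 + g) + (k₂ - lam) * (1 + e)) / 2 * Λ ≤ κ * Λ := by
    apply mul_le_mul_of_nonneg_right _ hΛ0
    have : k ≤ lam + d / 4 := by rw [hk]; linarith
    rw [hd] at this hkg hke hd0
    linarith
  have h7 : 0 ≤ π⁻¹ * (k * ((1 + 1 / g) * |Cd|)) := by positivity
  have h8 : 0 ≤ (k₂ - lam) * (|Cs| / 2) := mul_nonneg (by linarith) (by positivity)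
  have h9 : (|C₃| + π⁻¹ * (k * ((1 + 1 / g) * |Cd|)) + (k₂ - lam) * (|Cs| / 2) + π⁻¹ * C₁) *
      (1 + V * (-1 - x₁)) =
      |C₃| + π⁻¹ * (k * ((1 + 1 / g) * |Cd|)) + (k₂ - lam) * (|Cs| / 2) +
      π⁻¹ * C₁ * (1 + V * (-1 - x₁)) +
      (|C₃| + π⁻¹ * (k * ((1 + 1 / g) * |Cd|)) + (k₂ - lam) * (|Cs| / 2)) *
        (V * (-1 - x₁)) := by ring
  have h10 : 0 ≤ (|C₃| + π⁻¹ * (k * ((1 + 1 / g) * |Cd|)) + (k₂ - lam) * (|Cs| / 2)) *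
      (V * (-1 - x₁)) := mul_nonneg (by positivity) hVl
  have h11 := le_abs_self C₃
  rw [h5, mul_add] at h4
  rw [h9]
  have h12 : π⁻¹ * (d / 8 * E) = π⁻¹ * (d / 8) * E := by ring
  rw [h12] at h4
  linarith

end Pool.Agent.Helper84.CK
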