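import Pool.Agent.Helper84.CK.WtF
import Pool.Agent.Helper84.CK.FamW
set_option autoImplicit false
open Complex MeasureTheory Metric Set
open scoped Real ComplexConjugate

/-!
# Project CK: from the pointwise certificate to the integrated inequality with a weight

The term `Mt` (the critical multiplier) is kept.
-/

namespace Pool.Agent.Helper84.CK

open Pool.Agent.Helper52.EK Pool.Agent.Helper69.EK3 Pool.Agent.Helper69.EK7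

variable {P : (ℂ → ℂ) → ℝ → ℝ → Prop}

/-- the linear null Lagrangian -/
theorem isNullW_lin : IsNullW P (fun X ξ η => 1 - (X (pt ξ η)).re)
    (fun X ξ => π / 2 * (1 - (X (pt ξ (π / 2))).re)) := by
  refine (isNullW_har (P := P) (β := fun _ => (-1 : ℝ)) continuous_const 1
    (by norm_num)).congr ?_ ?_
  · intro X ξ η
    rw [pow_one, sub_re, one_re]
    ring
  · intro X ξ
    rw [pow_one, sub_re, one_re, intervalIntegral.integral_const, smul_eq_mul]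
    ring

theorem Eg_const {X : ℂ → ℂ} {x₁ x₂ V : ℝ} (hx : x₁ ≤ x₂) (hX : NiceH X x₁ x₂) :
    Eg (fun _ _ => V) X x₁ x₂ = V * (π / 2 * (x₂ - x₁) + En X x₁ x₂) := by
  have hpi : (0:ℝ) ≤ π / 2 := by positivity
  unfold Eg
  rw [IH_const_mul, IH_add hx hpi (CH_const 1) (CH_en hX)]
  congr 2
  unfold IH
  simp
  ring

/-- the two halves of the weighted integral of a functional with the mirror property -/
theorem split_w {x₁ x₂ : ℝ} (hx12 : x₁ ≤ x₂) {Ω : ℝ → ℝ → ℝ} {T : (ℂ → ℂ) → ℝ → ℝ → ℝ}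
    {X : ℂ → ℂ} (cΩ : CH x₁ x₂ π Ω) (cT : CH x₁ x₂ π (T X))
    (hTm : ∀ ξ ∈ Icc x₁ x₂, ∀ η ∈ Icc (0:ℝ) (π / 2), T X ξ (π - η) = T (mir X) ξ η) :
    II x₁ x₂ (fun ξ η => Ω ξ η * T X ξ η) =
      IH x₁ x₂ (π / 2) (fun ξ η => Ω ξ η * T X ξ η) +
      IH x₁ x₂ (π / 2) (fun ξ η => Ω ξ (π - η) * T (mir X) ξ η) := by
  have hpi : (0:ℝ) ≤ π / 2 := by positivity
  have split := II_split hx12 (CH.mul cΩ cT)
  have e3 : IH x₁ x₂ (π / 2) (fun ξ η => Ω ξ (π - η) * T X ξ (π - η)) =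
      IH x₁ x₂ (π / 2) (fun ξ η => Ω ξ (π - η) * T (mir X) ξ η) := by
    unfold IH
    refine intervalIntegral.integral_congr fun ξ hξ => ?_
    rw [uIcc_of_le hx12] at hξ
    refine intervalIntegral.integral_congr fun η hη => ?_
    rw [uIcc_of_le hpi] at hη
    simp only
    rw [hTm ξ hξ η hη]
  rw [← e3]
  exact split

/-- The assembly. The pointwise inequality may have an integrable error `ε ξ`. -/
theorem stripW {k₂ lam dc D : ℝ} (hlam : 0 ≤ lam) (hk₂ : lam ≤ k₂) (hdc : 0 ≤ dc)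
    {T Mt : (ℂ → ℂ) → ℝ → ℝ → ℝ}
    (hTc : ∀ (X : ℂ → ℂ) (x₁ x₂ : ℝ), NiceX X x₁ x₂ → CH x₁ x₂ π (T X))
    (hTh : ∀ (X : ℂ → ℂ) (x₁ x₂ : ℝ), NiceH X x₁ x₂ → CH x₁ x₂ (π / 2) (T X))
    (hTm : ∀ (X : ℂ → ℂ) (x₁ x₂ : ℝ), NiceX X x₁ x₂ → ∀ ξ ∈ Icc x₁ x₂,
      ∀ η ∈ Icc (0:ℝ) (π / 2), T X ξ (π - η) = T (mir X) ξ η)
    (hMc : ∀ (X : ℂ → ℂ) (x₁ x₂ : ℝ), NiceX X x₁ x₂ → CH x₁ x₂ π (Mt X))
    (hMh : ∀ (X : ℂ → ℂ) (x₁ x₂ : ℝ), NiceH X x₁ x₂ → CH x₁ x₂ (π / 2) (Mt X))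
    (hMm : ∀ (X : ℂ → ℂ) (x₁ x₂ : ℝ), NiceX X x₁ x₂ → ∀ ξ ∈ Icc x₁ x₂,
      ∀ η ∈ Icc (0:ℝ) (π / 2), Mt X ξ (π - η) = Mt (mir X) ξ η)
    {N : (ℂ → ℂ) → ℝ → ℝ → ℝ} {K : (ℂ → ℂ) → ℝ → ℝ} (hN : IsNullW P N K)
    (hp : ∀ (X : ℂ → ℂ) (x₁ x₂ : ℝ), x₁ ≤ x₂ → NiceH X x₁ x₂ → P X x₁ x₂ →
      ∃ ε : ℝ → ℝ, Continuous ε ∧ (∀ ξ, 0 ≤ ε ξ) ∧ ∫ ξ in x₁..x₂, ε ξ ≤ D ∧
        ∀ ξ ∈ Icc x₁ x₂, ∀ η ∈ Icc (0:ℝ) (π / 2),
          T X ξ η ≤ k₂ * (1 - (X (pt ξ η)).re) +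
            lam * (‖X (pt ξ η)‖ ^ 2 - (X (pt ξ η)).re) + dc + N X ξ η + Mt X ξ η + ε ξ) :
    ∃ C : ℝ, 0 ≤ C ∧ ∀ (X : ℂ → ℂ) (x₁ x₂ V : ℝ) (Ω Ω₁ Ω₂ : ℝ → ℝ → ℝ), x₁ ≤ x₂ → 0 ≤ V →
      WtF x₁ x₂ V Ω Ω₁ Ω₂ → NiceX X x₁ x₂ → P X x₁ x₂ → P (mir X) x₁ x₂ →
      II x₁ x₂ (fun ξ η => Ω ξ η * T X ξ η) ≤
      lam * II x₁ x₂ (fun ξ η => ‖X (pt ξ η) - 1‖ ^ 2) +
        (k₂ - lam) * (π * ∫ ξ in x₁..x₂, Ω ξ (π / 2) * (1 - (X (pt ξ (π / 2))).re)) +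
        dc * (π * (x₂ - x₁)) +
        (∫ ξ in x₁..x₂, Ω ξ (π / 2) * (K X ξ + K (mir X) ξ)) +
        II x₁ x₂ (fun ξ η => Ω ξ η * Mt X ξ η) +
        C * (1 + V * (π * (x₂ - x₁) + II x₁ x₂ (fun ξ η => ‖X (pt ξ η) - 1‖ ^ 2))) := by
  obtain ⟨C₁, hC₁⟩ := hN.le
  obtain ⟨C₂, hC₂⟩ := (isNullW_lin (P := P)).le
  refine ⟨|C₁| + (k₂ - lam) * |C₂| + π * |D|, by
    have : 0 ≤ k₂ - lam := by linarith
    positivity, fun X x₁ x₂ V Ω Ω₁ Ω₂ hx12 hV hw hX hP hP' => ?_⟩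
  have hpi : (0:ℝ) ≤ π / 2 := by positivity
  have hkl : 0 ≤ k₂ - lam := by linarith
  obtain ⟨E, hE⟩ : ∃ E, E = II x₁ x₂ (fun ξ η => ‖X (pt ξ η) - 1‖ ^ 2) := ⟨_, rfl⟩
  have hEE := En_add hx12 hX
  rw [← hE] at hEE ⊢
  have hE0 : 0 ≤ E := by
    rw [← hEE]
    exact add_nonneg (En_nonneg hx12) (En_nonneg hx12)
  -- one half
  have half : ∀ (Z : ℂ → ℂ) (ω ω₁ ω₂ : ℝ → ℝ → ℝ), Wt x₁ x₂ ω ω₁ ω₂ (fun _ _ => V) →
      NiceH Z x₁ x₂ → P Z x₁ x₂ →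
      IH x₁ x₂ (π / 2) (fun ξ η => ω ξ η * T Z ξ η) ≤
      (k₂ - lam) * (∫ ξ in x₁..x₂, ω ξ (π / 2) * (π / 2 * (1 - (Z (pt ξ (π / 2))).re))) +
        lam * En Z x₁ x₂ + dc * (π / 2 * (x₂ - x₁)) +
        (∫ ξ in x₁..x₂, ω ξ (π / 2) * K Z ξ) +
        IH x₁ x₂ (π / 2) (fun ξ η => ω ξ η * Mt Z ξ η) +
        π / 2 * |D| + (|C₁| + (k₂ - lam) * |C₂|) * (V * (π / 2 * (x₂ - x₁) + En Z x₁ x₂)) := by
    intro Z ω ω₁ ω₂ hω hZ hPZ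
    obtain ⟨ε, cε, ε0, εD, hε⟩ := hp Z x₁ x₂ hx12 hZ hPZ
    have b1 := hC₁ Z x₁ x₂ ω ω₁ ω₂ _ hx12 hω hZ hPZ
    have b2 := hC₂ Z x₁ x₂ ω ω₁ ω₂ _ hx12 hω hZ hPZ
    rw [Eg_const hx12 hZ] at b1 b2
    have hen := En_nonneg (X := Z) hx12
    obtain ⟨F, hF⟩ : ∃ F, F = V * (π / 2 * (x₂ - x₁) + En Z x₁ x₂) := ⟨_, rfl⟩
    have hF0 : 0 ≤ F := by
      rw [hF]
      have : 0 ≤ x₂ - x₁ := by linarith
      positivity
    rw [← hF] at b1 b2 ⊢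
    have cT : CH x₁ x₂ (π / 2) (T Z) := hTh Z x₁ x₂ hZ
    have f1 : CH x₁ x₂ (π / 2) (fun ξ η => (k₂ - lam) * (ω ξ η * (1 - (Z (pt ξ η)).re))) :=
      (CH_const _).mul (hω.c0.mul
        (CH_comp hZ.an.continuousOn (W := fun X => 1 - X.re) (by fun_prop)))
    have f2 : CH x₁ x₂ (π / 2) (fun ξ η => lam * ‖Z (pt ξ η) - 1‖ ^ 2) :=
      (CH_const _).mul (CH_comp hZ.an.continuousOn (W := fun X => ‖X - 1‖ ^ 2) (by fun_prop))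
    have f3 : CH x₁ x₂ (π / 2) (fun ξ η => ω ξ η * N Z ξ η) := hω.c0.mul (hN.cN Z x₁ x₂ hZ)
    have f5 : CH x₁ x₂ (π / 2) (fun ξ η => ω ξ η * Mt Z ξ η) := hω.c0.mul (hMh Z x₁ x₂ hZ)
    have f4 : CH x₁ x₂ (π / 2) (fun ξ _ => ε ξ) := CH_xi cε
    have f6 : CH x₁ x₂ (π / 2) (fun _ _ => dc * 1) := CH_const _
    have m := IH_mono hx12 hpi (hω.c0.mul cT) (((((f1.add f2).add f3).add f5).add f6).add f4) (by
      intro ξ hξ η hη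
      have h1 := hε ξ hξ η hη
      obtain ⟨w0, w1⟩ := hω.b01 ξ hξ η hη
      have h2 := mul_le_mul_of_nonneg_left h1 w0
      refine h2.trans ?_
      obtain ⟨Q, hQ⟩ : ∃ Q, Q = Z (pt ξ η) := ⟨_, rfl⟩
      have hn : ‖Q - 1‖ ^ 2 = ‖Q‖ ^ 2 - 2 * Q.re + 1 := by
        rw [← normSq_eq_norm_sq, ← normSq_eq_norm_sq, normSq_apply, normSq_apply, sub_re, sub_im,
          one_re, one_im]
        ring
      have h3 : ω ξ η * ε ξ ≤ ε ξ := mul_le_of_le_one_left (ε0 ξ) w1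
      have h4 : ω ξ η * (lam * ‖Q - 1‖ ^ 2) ≤ lam * ‖Q - 1‖ ^ 2 :=
        mul_le_of_le_one_left (mul_nonneg hlam (sq_nonneg _)) w1
      have h5 : ω ξ η * (k₂ * (1 - Q.re) + lam * (‖Q‖ ^ 2 - Q.re) + dc + N Z ξ η + Mt Z ξ η +
          ε ξ) =
          (k₂ - lam) * (ω ξ η * (1 - Q.re)) + ω ξ η * (lam * ‖Q - 1‖ ^ 2) + ω ξ η * dc +
            ω ξ η * N Z ξ η + ω ξ η * Mt Z ξ η + ω ξ η * ε ξ := by
        rw [hn]
        ring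
      have h6 : ω ξ η * dc ≤ dc := mul_le_of_le_one_left hdc w1
      rw [← hQ, h5]
      linarith)
    have e0 : IH x₁ x₂ (π / 2) (fun _ _ => dc * 1) = dc * (π / 2 * (x₂ - x₁)) := by
      rw [IH_const_mul]
      congr 1
      unfold IH
      simp
      ring
    rw [IH_add hx12 hpi ((((f1.add f2).add f3).add f5).add f6) f4,
      IH_add hx12 hpi (((f1.add f2).add f3).add f5) f6,
      IH_add hx12 hpi ((f1.add f2).add f3) f5, IH_add hx12 hpi (f1.add f2) f3,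
      IH_add hx12 hpi f1 f2, e0, IH_const_mul, IH_const_mul, IH_xi] at m
    have hD : π / 2 * ∫ ξ in x₁..x₂, ε ξ ≤ π / 2 * |D| :=
      mul_le_mul_of_nonneg_left (εD.trans (le_abs_self D)) hpi
    have r1 : C₁ * F ≤ |C₁| * F := mul_le_mul_of_nonneg_right (le_abs_self C₁) hF0
    have r2 : C₂ * F ≤ |C₂| * F := mul_le_mul_of_nonneg_right (le_abs_self C₂) hF0
    have b1' := (abs_le.1 b1).2
    have b2' := (abs_le.1 b2).2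
    have b3 : (k₂ - lam) * IH x₁ x₂ (π / 2) (fun ξ η => ω ξ η * (1 - (Z (pt ξ η)).re)) ≤
        (k₂ - lam) * ((∫ ξ in x₁..x₂, ω ξ (π / 2) * (π / 2 * (1 - (Z (pt ξ (π / 2))).re))) +
          |C₂| * F) := mul_le_mul_of_nonneg_left (by linarith) hkl
    rw [mul_add] at b3
    refine m.trans ?_
    have e : (|C₁| + (k₂ - lam) * |C₂|) * F = |C₁| * F + (k₂ - lam) * (|C₂| * F) := by ring
    rw [e]
    unfold En
    linarith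
  have t1 := half X Ω Ω₁ Ω₂ hw.half (NiceX.half hX) hP
  have t2 := half (mir X) _ _ _ hw.mir (NiceX.mir hX) hP'
  have s1 := split_w (T := T) hx12 hw.c0 (hTc X x₁ x₂ hX) (hTm X x₁ x₂ hX)
  have s2 := split_w (T := Mt) hx12 hw.c0 (hMc X x₁ x₂ hX) (hMm X x₁ x₂ hX)
  have epi : π - π / 2 = π / 2 := by ring
  simp only [epi] at t2
  rw [s1, s2]
  -- the line integrals
  have cΩ := CH_line hw.half.c0 pi2_mem
  have cXc : ContinuousOn (fun ξ : ℝ => X (pt ξ (π / 2))) (Icc x₁ x₂) :=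
    contC (NiceX.half hX).an.continuousOn
  have i1 : IntervalIntegrable (fun ξ => Ω ξ (π / 2) * K X ξ) volume x₁ x₂ :=
    (cΩ.mul (hN.cK X x₁ x₂ (NiceX.half hX))).intervalIntegrable_of_Icc hx12
  have i2 : IntervalIntegrable (fun ξ => Ω ξ (π / 2) * K (mir X) ξ) volume x₁ x₂ :=
    (cΩ.mul (hN.cK (mir X) x₁ x₂ (NiceX.mir hX))).intervalIntegrable_of_Icc hx12
  have s3 : ∫ ξ in x₁..x₂, Ω ξ (π / 2) * (K X ξ + K (mir X) ξ) =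
      (∫ ξ in x₁..x₂, Ω ξ (π / 2) * K X ξ) + ∫ ξ in x₁..x₂, Ω ξ (π / 2) * K (mir X) ξ := by
    rw [← intervalIntegral.integral_add i1 i2]
    simp only [mul_add]
  rw [s3]
  obtain ⟨S, hS⟩ : ∃ S, S = ∫ ξ in x₁..x₂, Ω ξ (π / 2) * (1 - (X (pt ξ (π / 2))).re) := ⟨_, rfl⟩
  have e5 : ∫ ξ in x₁..x₂, Ω ξ (π / 2) * (π / 2 * (1 - (X (pt ξ (π / 2))).re)) = π / 2 * S := by
    rw [hS, ← intervalIntegral.integral_const_mul]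
    refine intervalIntegral.integral_congr fun ξ _ => ?_
    ring
  have e6 : ∫ ξ in x₁..x₂, Ω ξ (π / 2) * (π / 2 * (1 - (mir X (pt ξ (π / 2))).re)) =
      π / 2 * S := by
    rw [← e5]
    refine intervalIntegral.integral_congr fun ξ _ => ?_
    rw [mir_cent, conj_re]
  rw [e5] at t1
  rw [e6] at t2
  rw [← hS]
  have hF : V * (π / 2 * (x₂ - x₁) + En X x₁ x₂) + V * (π / 2 * (x₂ - x₁) + En (mir X) x₁ x₂) =
      V * (π * (x₂ - x₁) + E) := by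
    rw [← hEE]
    ring
  have hFn : 0 ≤ V * (π * (x₂ - x₁) + E) := by
    have : 0 ≤ x₂ - x₁ := by linarith
    positivity
  obtain ⟨c, hc⟩ : ∃ c, c = |C₁| + (k₂ - lam) * |C₂| := ⟨_, rfl⟩
  have hc0 : 0 ≤ c := by rw [hc]; positivity
  rw [← hc] at t1 t2 ⊢
  have e7 : (c + π * |D|) * (1 + V * (π * (x₂ - x₁) + E)) =
      c * (V * (π * (x₂ - x₁) + E)) + c + π * |D| + π * |D| * (V * (π * (x₂ - x₁) + E)) := by
    ring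
  have e8 : c * (V * (π / 2 * (x₂ - x₁) + En X x₁ x₂)) +
      c * (V * (π / 2 * (x₂ - x₁) + En (mir X) x₁ x₂)) = c * (V * (π * (x₂ - x₁) + E)) := by
    rw [← mul_add, hF]
  have e9 : 0 ≤ π * |D| * (V * (π * (x₂ - x₁) + E)) :=
    mul_nonneg (mul_nonneg Real.pi_pos.le (abs_nonneg D)) hFn
  have e10 : lam * En X x₁ x₂ + lam * En (mir X) x₁ x₂ = lam * E := by rw [← mul_add, hEE]
  have e11 : dc * (π * (x₂ - x₁)) = dc * (π / 2 * (x₂ - x₁)) + dc * (π / 2 * (x₂ - x₁)) := by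
    ring
  rw [e7, e11]
  linarith

end Pool.Agent.Helper84.CK
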